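import Pool.Agent.Q105.MN.Basic

/-!
# Relatively bijective families and amalgamated products
-/

set_option autoImplicit false
set_option linter.unusedSectionVars false

namespace Pool.Agent.Q105.MN

open Pool.Agent.Q262.NV Pool.Agent.Q105.NV

section sq

variable {V : Type} {X' Y' : V → Type} [∀ v, Group (X' v)] [∀ v, Group (Y' v)] {X Y : Type}
  [Group X] [Group Y] {H E : MFun} {β : MNat H E} {x : ∀ v, Emb (X' v) X} {y : ∀ v, Emb (Y' v) Y}
  {e' : ∀ v, Emb (X' v) (Y' v)} {e : Emb X Y}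

/-- the map of the middle terms -/
noncomputable def mid (H E : MFun) (e' : ∀ v, Emb (X' v) (Y' v)) (e : Emb X Y) :
    (Π₀ v, E.obj (X' v)) × H.obj X →+ (Π₀ v, E.obj (Y' v)) × H.obj Y :=
  (mapD (fun v => mp E (e' v))).prodMap (mp H e)

theorem sq_f (h : ∀ v, (y v).f.comp (e' v).f = e.f.comp (x v).f) (a : Π₀ v, H.obj (X' v)) :
    fM β y (mapD (fun v => mp H (e' v)) a) = mid H E e' e (fM β x a) := by
  refine Prod.ext (mapD_ext fun v => mp_nat β (e' v) (a v)) ?_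
  change sumD (fun v => -(mp H (y v))) (mapD _ a) = mp H e (sumD (fun v => -(mp H (x v))) a)
  rw [sumD_mapD, hom_sumD]
  refine sumD_congr (fun v z => ?_) a
  change -(mp H (y v) (mp H (e' v) z)) = mp H e (-(mp H (x v) z))
  rw [map_neg, mp_sq H (h v)]

theorem sq_g (h : ∀ v, (y v).f.comp (e' v).f = e.f.comp (x v).f)
    (b : (Π₀ v, E.obj (X' v)) × H.obj X) :
    gM β y (mid H E e' e b) = mp E e (gM β x b) := by
  obtain ⟨a, t⟩ := b
  change sumD (fun v => mp E (y v)) (mapD _ a) + β.app Y (mp H e t) =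
    mp E e (sumD (fun v => mp E (x v)) a + β.app X t)
  rw [map_add, sumD_mapD, hom_sumD, mp_nat]
  congr 1
  refine sumD_congr (fun v z => ?_) a
  exact mp_sq E (h v) z

end sq

section step

variable {V : Type} {K' A' B' P' : V → Type} [∀ v, Group (K' v)] [∀ v, Group (A' v)]
  [∀ v, Group (B' v)] [∀ v, Group (P' v)] {K A B P : Type} [Group K] [Group A] [Group B]
  [Group P] {H' E' H E : MFun} {β : MNat H' E'} {α : MNat H E}

theorem exP {d : MVMap H' H} (hd : MVBd d) (S' : ∀ v, Sq (K' v) (A' v) (B' v) (P' v))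
    (dd : ∀ v, H'.obj (P' v) →+ H.obj (K' v))
    (hdd : ∀ v z, dd v z = d (K' v) (A' v) (B' v) (P' v) (S' v) z)
    (z : Π₀ v, H'.obj (P' v)) (hz : mapD dd z = 0) :
    ∃ (x : Π₀ v, H'.obj (A' v)) (y : Π₀ v, H'.obj (B' v)),
      mapD (fun v => mp H' (S' v).a) x + mapD (fun v => mp H' (S' v).b) y = z := by
  obtain ⟨c, hc⟩ := exD (u := fun v => (mp H' (S' v).a).coprod (mp H' (S' v).b)) (w := dd)
    (fun v b hb => by
      obtain ⟨x, y, h⟩ := (hd.2.2.1 _ _ _ _ (S' v) b).1 ((hdd v b).symm.trans hb)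
      exact ⟨(x, y), h⟩) z hz
  refine ⟨mapD (fun v => AddMonoidHom.fst _ _) c, mapD (fun v => AddMonoidHom.snd _ _) c, ?_⟩
  rw [← hc]
  exact mapD_ext fun v => rfl

theorem exK {d : MVMap H' H} (hd : MVBd d) (S' : ∀ v, Sq (K' v) (A' v) (B' v) (P' v))
    (dd : ∀ v, H'.obj (P' v) →+ H.obj (K' v))
    (hdd : ∀ v z, dd v z = d (K' v) (A' v) (B' v) (P' v) (S' v) z)
    (z : Π₀ v, H.obj (K' v)) (hz : mapD (fun v => mp H (S' v).i) z = 0)
    (hz' : mapD (fun v => mp H (S' v).j) z = 0) : ∃ y, mapD dd y = z := by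
  refine exD (u := dd) (w := fun v => (mp H (S' v).i).prod (mp H (S' v).j)) (fun v b hb => ?_) z
    (mapD_ext fun v => Prod.ext (DFunLike.congr_fun hz v) (DFunLike.congr_fun hz' v))
  obtain ⟨y, hy⟩ := (hd.2.2.2 _ _ _ _ (S' v) b).1 ⟨congrArg Prod.fst hb, congrArg Prod.snd hb⟩
  exact ⟨y, (hdd v y).trans hy⟩

theorem exAB (hH : MVExAB H) (S' : ∀ v, Sq (K' v) (A' v) (B' v) (P' v))
    (x : Π₀ v, H.obj (A' v)) (y : Π₀ v, H.obj (B' v))
    (h : mapD (fun v => mp H (S' v).a) x + mapD (fun v => mp H (S' v).b) y = 0) :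
    ∃ c, mapD (fun v => mp H (S' v).i) c = x ∧ -(mapD (fun v => mp H (S' v).j) c) = y := by
  obtain ⟨c, hc⟩ := exD (u := fun v => (mp H (S' v).i).prod (-(mp H (S' v).j)))
    (w := fun v => (mp H (S' v).a).coprod (mp H (S' v).b)) (fun v b hb => by
      obtain ⟨c, h1, h2⟩ := hH _ _ _ _ (S' v) b.1 b.2 hb
      exact ⟨c, Prod.ext h1 h2⟩)
    (mapD (fun v => AddMonoidHom.inl _ _) x + mapD (fun v => AddMonoidHom.inr _ _) y)
    (mapD_ext fun v => by
      have h1 := DFunLike.congr_fun h v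
      change mp H (S' v).a (x v + 0) + mp H (S' v).b (0 + y v) = 0
      rw [add_zero, zero_add]
      exact h1)
  refine ⟨c, mapD_ext fun v => ?_, mapD_ext fun v => ?_⟩
  · have h1 := congrArg Prod.fst (DFunLike.congr_fun hc v)
    refine h1.trans ?_
    change x v + 0 = x v
    rw [add_zero]
  · have h1 := congrArg Prod.snd (DFunLike.congr_fun hc v)
    refine h1.trans ?_
    change 0 + y v = y v
    rw [zero_add]

/-- **Amalgamated products.** -/
theorem amal_step (hS : AmalSeq β α) (hH : MVExAB H)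
    {S : Sq K A B P} {S' : ∀ v, Sq (K' v) (A' v) (B' v) (P' v)} (F : ∀ v, SqHom (S' v) S)
    (hK' : RelM β (fun v => (F v).k)) (hK : RelM α (fun v => (F v).k))
    (hA' : RelM β (fun v => (F v).p)) (hA : RelM α (fun v => (F v).p))
    (hB' : RelM β (fun v => (F v).q)) (hB : RelM α (fun v => (F v).q))
    (iA : ∀ v, InjM α (A' v)) (iB : ∀ v, InjM α (B' v)) (iP : ∀ v, InjM α (P' v)) :
    RelM β (fun v => (F v).r) := by
  obtain ⟨xH', xE', d, e, hd, he, hde⟩ := hS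
  -- the boundary homomorphisms
  let dd : ∀ v, H'.obj (P' v) →+ H.obj (K' v) := fun v =>
    AddMonoidHom.mk' (d _ _ _ _ (S' v)) (hd.1 _ _ _ _ (S' v))
  let ee : ∀ v, E'.obj (P' v) →+ E.obj (K' v) := fun v =>
    AddMonoidHom.mk' (e _ _ _ _ (S' v)) (he.1 _ _ _ _ (S' v))
  let d0 : H'.obj P →+ H.obj K := AddMonoidHom.mk' (d _ _ _ _ S) (hd.1 _ _ _ _ S)
  let e0 : E'.obj P →+ E.obj K := AddMonoidHom.mk' (e _ _ _ _ S) (he.1 _ _ _ _ S)
  let a23 := (mapD (fun v => mp H' (S' v).a)).coprod (mapD (fun v => mp H' (S' v).b))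
  let a34 := mapD dd
  let a45 := (mapD (fun v => mp H (S' v).i)).prod (-(mapD (fun v => mp H (S' v).j)))
  let a56 := (mapD (fun v => mp H (S' v).a)).coprod (mapD (fun v => mp H (S' v).b))
  let b12 := (mid H' E' (fun v => (S' v).i) S.i).prod (-(mid H' E' (fun v => (S' v).j) S.j))
  let b23 := (mid H' E' (fun v => (S' v).a) S.a).coprod (mid H' E' (fun v => (S' v).b) S.b)
  let b34 := (mapD ee).prodMap d0
  let b45 := (mid H E (fun v => (S' v).i) S.i).prod (-(mid H E (fun v => (S' v).j) S.j))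
  let b56 := (mid H E (fun v => (S' v).a) S.a).coprod (mid H E (fun v => (S' v).b) S.b)
  let c12 := (mp E' S.i).prod (-(mp E' S.j))
  let c23 := (mp E' S.a).coprod (mp E' S.b)
  let c45 := (mp E S.i).prod (-(mp E S.j))
  let k : ∀ v, Emb (K' v) K := fun v => (F v).k
  let p : ∀ v, Emb (A' v) A := fun v => (F v).p
  let q : ∀ v, Emb (B' v) B := fun v => (F v).q
  let r : ∀ v, Emb (P' v) P := fun v => (F v).r
  -- the squares
  have q23 : ∀ a, fM β r (a23 a) = b23 ((fM β p).prodMap (fM β q) a) := by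
    rintro ⟨x, y⟩
    change fM β r (mapD _ x + mapD _ y) = mid H' E' _ S.a (fM β p x) + mid H' E' _ S.b (fM β q y)
    rw [map_add, sq_f (fun v => (F v).ca), sq_f (fun v => (F v).cb)]
  have q56 : ∀ a, fM α r (a56 a) = b56 ((fM α p).prodMap (fM α q) a) := by
    rintro ⟨x, y⟩
    change fM α r (mapD _ x + mapD _ y) = mid H E _ S.a (fM α p x) + mid H E _ S.b (fM α q y)
    rw [map_add, sq_f (fun v => (F v).ca), sq_f (fun v => (F v).cb)]
  have q45 : ∀ a, (fM α p).prodMap (fM α q) (a45 a) = b45 (fM α k a) := by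
    intro a
    refine Prod.ext (sq_f (fun v => (F v).ci) a) ?_
    change fM α q (-(mapD _ a)) = -(mid H E _ S.j (fM α k a))
    rw [map_neg, sq_f (fun v => (F v).cj)]
  have r12 : ∀ b, (gM β p).prodMap (gM β q) (b12 b) = c12 (gM β k b) := by
    intro b
    refine Prod.ext (sq_g (fun v => (F v).ci) b) ?_
    change gM β q (-(mid H' E' _ S.j b)) = -(mp E' S.j (gM β k b))
    rw [map_neg, sq_g (fun v => (F v).cj)]
  have r45 : ∀ b, (gM α p).prodMap (gM α q) (b45 b) = c45 (gM α k b) := by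
    intro b
    refine Prod.ext (sq_g (fun v => (F v).ci) b) ?_
    change gM α q (-(mid H E _ S.j b)) = -(mp E S.j (gM α k b))
    rw [map_neg, sq_g (fun v => (F v).cj)]
  have r23 : ∀ b, gM β r (b23 b) = c23 ((gM β p).prodMap (gM β q) b) := by
    rintro ⟨x, y⟩
    change gM β r (mid H' E' _ S.a x + mid H' E' _ S.b y) =
      mp E' S.a (gM β p x) + mp E' S.b (gM β q y)
    rw [map_add, sq_g (fun v => (F v).ca), sq_g (fun v => (F v).cb)]
  have q34 : ∀ a, fM α k (a34 a) = b34 (fM β r a) := by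
    intro a
    refine Prod.ext (mapD_ext fun v => hde _ _ _ _ (S' v) (a v)) ?_
    change sumD (fun v => -(mp H (k v))) (mapD dd a) = d0 (sumD (fun v => -(mp H' (r v))) a)
    rw [sumD_mapD, hom_sumD]
    refine sumD_congr (fun v z => ?_) a
    change -(mp H (k v) (dd v z)) = d0 (-(mp H' (r v) z))
    rw [map_neg]
    exact congrArg Neg.neg (hd.2.1 _ _ _ _ _ _ _ _ (S' v) S (F v) z).symm
  have r34 : ∀ b, gM α k (b34 b) = e0 (gM β r b) := by
    rintro ⟨a, t⟩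
    change sumD (fun v => mp E (k v)) (mapD ee a) + α.app K (d0 t) =
      e0 (sumD (fun v => mp E' (r v)) a + β.app P t)
    rw [map_add, sumD_mapD, hom_sumD]
    congr 1
    · refine sumD_congr (fun v z => ?_) a
      exact (he.2.1 _ _ _ _ _ _ _ _ (S' v) S (F v) z).symm
    · exact hde _ _ _ _ S t
  have zz5 : ∀ (J J' : MFun) (b : (Π₀ v, J'.obj (K' v)) × J.obj K),
      (mid J J' (fun v => (S' v).a) S.a) ((mid J J' (fun v => (S' v).i) S.i) b) +
        (mid J J' (fun v => (S' v).b) S.b) (-((mid J J' (fun v => (S' v).j) S.j) b)) = 0 := by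
    rintro J J' ⟨a, t⟩
    rw [map_neg, ← sub_eq_add_neg, sub_eq_zero]
    refine Prod.ext (mapD_ext fun v => ?_) ?_
    · exact mp_sq J' (S' v).comm (a v)
    · exact mp_sq J S.comm t
  have zB2 : ∀ b, b23 (b12 b) = 0 := fun b => zz5 H' E' b
  have zB5 : ∀ b, b56 (b45 b) = 0 := fun b => zz5 H E b
  have x5 : ∀ b, (gM α p).prodMap (gM α q) b = 0 → ∃ a, (fM α p).prodMap (fM α q) a = b := by
    rintro ⟨x, y⟩ h
    obtain ⟨x', hx'⟩ := hA.exact x (congrArg Prod.fst h)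
    obtain ⟨y', hy'⟩ := hB.exact y (congrArg Prod.snd h)
    exact ⟨(x', y'), Prod.ext hx' hy'⟩
  have x2 : ∀ b, (gM β p).prodMap (gM β q) b = 0 → ∃ a, (fM β p).prodMap (fM β q) a = b := by
    rintro ⟨x, y⟩ h
    obtain ⟨x', hx'⟩ := hA'.exact x (congrArg Prod.fst h)
    obtain ⟨y', hy'⟩ := hB'.exact y (congrArg Prod.snd h)
    exact ⟨(x', y'), Prod.ext hx' hy'⟩
  have s2 : ∀ c, ∃ b, (gM β p).prodMap (gM β q) b = c := by
    rintro ⟨x, y⟩
    obtain ⟨x', hx'⟩ := hA'.surj x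
    obtain ⟨y', hy'⟩ := hB'.surj y
    exact ⟨(x', y'), Prod.ext hx' hy'⟩
  have exA4 : ∀ a, a45 a = 0 → ∃ a', a34 a' = a := by
    intro a ha
    exact exK hd S' dd (fun _ _ => rfl) a (congrArg Prod.fst ha)
      (neg_eq_zero.1 (congrArg Prod.snd ha))
  have exB4 : ∀ b, b45 b = 0 → ∃ b', b34 b' = b := by
    rintro ⟨a, t⟩ hb
    have h1 := congrArg Prod.fst hb
    have h2 : mid H E (fun v => (S' v).j) S.j (a, t) = 0 := neg_eq_zero.1 (congrArg Prod.snd hb)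
    obtain ⟨a', ha'⟩ := exK he S' ee (fun _ _ => rfl) a (congrArg Prod.fst h1)
      (congrArg Prod.fst h2)
    obtain ⟨t', ht'⟩ := (hd.2.2.2 _ _ _ _ S t).1 ⟨congrArg Prod.snd h1, congrArg Prod.snd h2⟩
    exact ⟨(a', t'), Prod.ext ha' ht'⟩
  have zK : ∀ c, c45 (e0 c) = 0 := by
    intro c
    obtain ⟨h1, h2⟩ := (he.2.2.2 _ _ _ _ S (e0 c)).2 ⟨c, rfl⟩
    exact Prod.ext h1 (neg_eq_zero.2 h2)
  have zB4 : ∀ b, b45 (b34 b) = 0 := by
    rintro ⟨a, t⟩
    have h1 : ∀ v, mp E (S' v).i (ee v (a v)) = 0 ∧ mp E (S' v).j (ee v (a v)) = 0 := fun v =>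
      (he.2.2.2 _ _ _ _ (S' v) _).2 ⟨a v, rfl⟩
    obtain ⟨h2, h3⟩ := (hd.2.2.2 _ _ _ _ S (d0 t)).2 ⟨t, rfl⟩
    refine Prod.ext (Prod.ext (mapD_ext fun v => (h1 v).1) h2) (neg_eq_zero.2 ?_)
    exact Prod.ext (mapD_ext fun v => (h1 v).2) h3
  have exC3 : ∀ c, e0 c = 0 → ∃ c', c23 c' = c := by
    intro c hc
    obtain ⟨x, y, h⟩ := (he.2.2.1 _ _ _ _ S c).1 hc
    exact ⟨(x, y), h⟩
  have exB3 : ∀ b, b34 b = 0 → ∃ b', b23 b' = b := by
    rintro ⟨a, t⟩ hb
    obtain ⟨x, y, h1⟩ := exP he S' ee (fun _ _ => rfl) a (congrArg Prod.fst hb)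
    obtain ⟨s, u, h2⟩ := (hd.2.2.1 _ _ _ _ S t).1 (congrArg Prod.snd hb)
    exact ⟨((x, s), (y, u)), Prod.ext h1 h2⟩
  refine relM_of (chase_surj (a45 := a45) (a56 := a56) (b23 := b23) (b34 := b34) (b45 := b45)
      (b56 := b56) (c23 := c23) (c34 := e0) (c45 := c45) (f4 := fM α k)
      (f5 := (fM α p).prodMap (fM α q)) (f6 := fM α r) (g2 := (gM β p).prodMap (gM β q))
      (g3 := gM β r) (g4 := gM α k) (g5 := (gM α p).prodMap (gM α q)) ?_ exB4 zB5 zK exC3 q45 q56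
      r34 r45 r23 (gM_fM (β := α)) hK.surj s2 x5 (fM_inj iP))
    (chase_exact (a23 := a23) (a34 := a34) (a45 := a45) (b12 := b12) (b23 := b23)
      (b34 := b34) (b45 := b45) (c12 := c12) (c23 := c23) (c34 := e0)
      (f2 := (fM β p).prodMap (fM β q)) (f3 := fM β r) (f4 := fM α k)
      (f5 := (fM α p).prodMap (fM α q)) (g1 := gM β k) (g2 := (gM β p).prodMap (gM β q))
      (g3 := gM β r) (g4 := gM α k) exA4 zB4 exB3 zB2 ?_ q23 q34 q45 r12 r23 r34
      (gM_fM (β := β)) hK.exact ?_ hK'.surj x2)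
  · rintro ⟨x, y⟩ h
    obtain ⟨c, h1, h2⟩ := exAB hH S' x y h
    exact ⟨c, Prod.ext h1 h2⟩
  · rintro ⟨x, y⟩ h
    obtain ⟨c, h1, h2⟩ := xE' _ _ _ _ S x y h
    exact ⟨c, Prod.ext h1 h2⟩
  · rintro ⟨x, y⟩ h
    exact Prod.ext (fM_inj iA x (congrArg Prod.fst h)) (fM_inj iB y (congrArg Prod.snd h))

end step

end Pool.Agent.Q105.MN
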