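import Pool.Agent.Q105.MN.Defs

/-!
# Relatively bijective families for functors on groups and embeddings
-/

set_option autoImplicit false
set_option linter.unusedSectionVars false

namespace Pool.Agent.Q105.MN

open Pool.Agent.Q262.NV Pool.Agent.Q105.NV

/-- Composition. -/
def Emb.comp {A B D : Type} [Group A] [Group B] [Group D] (g : Emb B D) (f : Emb A B) : Emb A D :=
  ⟨g.f.comp f.f, g.inj.comp f.inj⟩

/-- isomorphisms -/
def Emb.ofEquiv {A B : Type} [Group A] [Group B] (e : A ≃* B) : Emb A B :=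
  ⟨e.toMonoidHom, e.injective⟩

theorem mp_congr (H : MFun) {A B : Type} [Group A] [Group B] {e e' : Emb A B} (h : e.f = e'.f)
    (x : H.obj A) : mp H e x = mp H e' x :=
  H.map_congr h e.inj e'.inj x

theorem mp_comp (H : MFun) {A B D : Type} [Group A] [Group B] [Group D] (g : Emb B D)
    (f : Emb A B) (x : H.obj A) : mp H g (mp H f x) = mp H (g.comp f) x :=
  (H.map_comp g.f f.f g.inj f.inj x).symm

theorem mp_sq (H : MFun) {A B B' D : Type} [Group A] [Group B] [Group B'] [Group D] {g : Emb B D}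
    {f : Emb A B} {g' : Emb B' D} {f' : Emb A B'} (h : g.f.comp f.f = g'.f.comp f'.f)
    (x : H.obj A) : mp H g (mp H f x) = mp H g' (mp H f' x) := by
  rw [mp_comp, mp_comp]
  exact mp_congr H h x

theorem mp_id (H : MFun) {A : Type} [Group A] {e : Emb A A} (h : e.f = MonoidHom.id A)
    (x : H.obj A) : mp H e x = x :=
  (H.map_congr h e.inj Function.injective_id x).trans (H.map_id A x)

theorem mp_nat {H E : MFun} (α : MNat H E) {A B : Type} [Group A] [Group B] (e : Emb A B)
    (x : H.obj A) : α.app B (mp H e x) = mp E e (α.app A x) :=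
  α.nat e.f e.inj x

theorem map_equiv (H : MFun) {A B : Type} [Group A] [Group B] (e : A ≃* B) (x : H.obj B) :
    mp H (Emb.ofEquiv e) (mp H (Emb.ofEquiv e.symm) x) = x := by
  rw [mp_comp]
  exact mp_id H (MonoidHom.ext fun y => e.apply_symm_apply y) x

/-- the natural transformation is injective for `G` -/
def InjM {H E : MFun} (α : MNat H E) (G : Type) [Group G] : Prop :=
  Function.Injective (α.app G)

theorem injM_of {H E : MFun} (α : MNat H E) (G : Type) [Group G]
    (h : ∀ x, α.app G x = 0 → x = 0) : InjM α G :=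
  (injective_iff_map_eq_zero (α.hom G)).2 h

theorem injM_iso {H E : MFun} (α : MNat H E) {G G' : Type} [Group G] [Group G'] (e : G ≃* G')
    (h : InjM α G') : InjM α G := by
  refine injM_of α G (fun x hx => ?_)
  have h1 : mp H (Emb.ofEquiv e) x = 0 := h (by
    rw [mp_nat, hx, map_zero, α.app_zero])
  have h2 := map_equiv H e.symm x
  rw [MulEquiv.symm_symm, h1, map_zero] at h2
  exact h2.symm

section rel

variable {V : Type} {P : V → Type} [∀ v, Group (P v)] {N : Type} [Group N]

/-- the homomorphism of direct sums -/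
noncomputable def ntM {H E : MFun} (β : MNat H E) (P : V → Type) [∀ v, Group (P v)] :
    (Π₀ v, H.obj (P v)) →+ (Π₀ v, E.obj (P v)) :=
  mapD (fun v => β.hom (P v))

variable {H E : MFun} {β : MNat H E} {j : ∀ v, Emb (P v) N}

theorem RelM.inj (h : RelM β j) (hP : ∀ v, InjM β (P v)) : InjM β N := by
  refine injM_of β N (fun x hx => ?_)
  obtain ⟨y, hy, hy'⟩ := h.2 0 x (by
    unfold smM
    rw [hx, map_zero])
  have h1 : y = 0 := mapD_ext fun v => hP v (by
    rw [hy', DFinsupp.zero_apply, DFinsupp.zero_apply, β.app_zero])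
  rw [← hy, h1]
  unfold smM
  rw [map_zero]

/-- the maps of the chase -/
noncomputable def fM (β : MNat H E) (j : ∀ v, Emb (P v) N) :
    (Π₀ v, H.obj (P v)) →+ (Π₀ v, E.obj (P v)) × H.obj N :=
  (ntM β P).prod (sumD (fun v => -(mp H (j v))))

/-- the maps of the chase -/
noncomputable def gM (β : MNat H E) (j : ∀ v, Emb (P v) N) :
    (Π₀ v, E.obj (P v)) × H.obj N →+ E.obj N :=
  (sumD (fun v => mp E (j v))).coprod (β.hom N)

theorem zzM {V : Type} {A B : V → Type} [∀ v, AddCommGroup (A v)] [∀ v, AddCommGroup (B v)]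
    {T K : Type} [AddCommGroup T] [AddCommGroup K] {u : ∀ v, A v →+ T} {w : ∀ v, B v →+ A v}
    {k : K →+ T} {z : ∀ v, B v →+ K} (h : ∀ v x, u v (w v x) + k (z v x) = 0) (a : Π₀ v, B v) :
    sumD u (mapD w a) + k (sumD z a) = 0 := by
  classical
  refine homD_ext (k := (sumD u).comp (mapD w) + k.comp (sumD z)) (k' := 0) (fun v x => ?_) a
  rw [AddMonoidHom.add_apply, AddMonoidHom.comp_apply, AddMonoidHom.comp_apply, mapD_single,
    sumD_single, sumD_single, h]
  rfl

theorem gM_fM (a : Π₀ v, H.obj (P v)) : gM β j (fM β j a) = 0 := by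
  refine zzM (u := fun v => mp E (j v)) (w := fun v => β.hom (P v)) (k := β.hom N)
    (z := fun v => -(mp H (j v))) (fun v x => ?_) a
  change mp E (j v) (β.app (P v) x) + β.hom N (-(mp H (j v) x)) = 0
  rw [map_neg]
  change mp E (j v) (β.app (P v) x) + -(β.app N (mp H (j v) x)) = 0
  rw [mp_nat, add_neg_cancel]

theorem sum_neg (a : Π₀ v, H.obj (P v)) :
    sumD (fun v => -(mp H (j v))) a = -(smM H j a) := by
  have h2 := hom_sumD (-(AddMonoidHom.id (H.obj N))) (fun v => mp H (j v)) a
  exact h2.symm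

theorem RelM.surj (h : RelM β j) (c : E.obj N) : ∃ b, gM β j b = c := by
  obtain ⟨a, u, h⟩ := h.1 c
  exact ⟨(a, u), h⟩

theorem RelM.exact (h : RelM β j) (b : (Π₀ v, E.obj (P v)) × H.obj N) (h0 : gM β j b = 0) :
    ∃ a, fM β j a = b := by
  obtain ⟨a, t⟩ := b
  obtain ⟨b, hb, hb'⟩ := h.2 a (-t) (by
    have h1 : β.app N (-t) = -(β.app N t) := (β.hom N).map_neg t
    rw [h1]
    exact eq_neg_of_add_eq_zero_left h0)
  refine ⟨b, Prod.ext (mapD_ext hb') ?_⟩
  change sumD (fun v => -(mp H (j v))) b = t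
  rw [sum_neg, hb, neg_neg]

theorem relM_of (h1 : ∀ c, ∃ b, gM β j b = c)
    (h2 : ∀ b, gM β j b = 0 → ∃ a, fM β j a = b) : RelM β j := by
  constructor
  · intro c
    obtain ⟨⟨a, u⟩, h⟩ := h1 c
    exact ⟨a, u, h⟩
  · intro a u h
    obtain ⟨b, hb⟩ := h2 (a, -u) (by
      change smM E j a + β.hom N (-u) = 0
      rw [map_neg, h]
      exact add_neg_cancel _)
    refine ⟨b, ?_, fun v => DFunLike.congr_fun (congrArg Prod.fst hb) v⟩
    have h3 : sumD (fun v => -(mp H (j v))) b = -u := congrArg Prod.snd hb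
    rw [sum_neg] at h3
    exact neg_injective h3

theorem fM_inj (hP : ∀ v, InjM β (P v)) (a : Π₀ v, H.obj (P v)) (ha : fM β j a = 0) : a = 0 := by
  refine mapD_ext fun v => hP v ?_
  have h1 := DFunLike.congr_fun (congrArg Prod.fst ha) v
  exact h1.trans (β.app_zero _).symm

end rel

end Pool.Agent.Q105.MN
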