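import Pool.Agent.Q105.MN.Inf

/-!
# Cokernels of natural transformations and relatively bijective families
-/

set_option autoImplicit false
set_option linter.unusedSectionVars false

namespace Pool.Agent.Q105.MN

open Pool.Agent.Q262.NV Pool.Agent.Q105.NV

/-- The cokernel of `Θ` for `G` is `S`-torsion: each element of `E(G)` has a multiple `s c` with `s` in `S`
in the image of `Θ`. -/
def CokTor (S : Submonoid ℕ) {R E : MFun} (Θ : MNat R E) (G : Type) [Group G] : Prop :=
  ∀ c : E.obj G, ∃ s ∈ S, ∃ r : R.obj G, Θ.app G r = s • c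

section

variable (S : Submonoid ℕ) {R H E : MFun} {Θ : MNat R E} {α : MNat H E}

/-- the elements with a multiple in the image -/
def inIm (Θ : MNat R E) (G : Type) [Group G] (c : E.obj G) : Prop :=
  ∃ s ∈ S, ∃ r : R.obj G, Θ.app G r = s • c

variable {S}

theorem inIm_zero (G : Type) [Group G] : inIm S Θ G 0 :=
  ⟨1, S.one_mem, 0, by rw [Θ.app_zero, smul_zero]⟩

theorem inIm_add {G : Type} [Group G] {c c' : E.obj G} (h : inIm S Θ G c) (h' : inIm S Θ G c') :
    inIm S Θ G (c + c') := by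
  obtain ⟨s, hs, r, hr⟩ := h
  obtain ⟨s', hs', r', hr'⟩ := h'
  refine ⟨s * s', S.mul_mem hs hs', s' • r + s • r', ?_⟩
  rw [Θ.app_add, Θ.app_nsmul, Θ.app_nsmul, hr, hr', smul_smul, smul_smul, smul_add, mul_comm s' s]

theorem inIm_map {G G' : Type} [Group G] [Group G'] (e : Emb G G') {c : E.obj G}
    (h : inIm S Θ G c) : inIm S Θ G' (mp E e c) := by
  obtain ⟨s, hs, r, hr⟩ := h
  refine ⟨s, hs, mp R e r, ?_⟩
  rw [mp_nat, hr, map_nsmul]

theorem inIm_sm {V : Type} {P : V → Type} [∀ v, Group (P v)] {N : Type} [Group N]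
    {j : ∀ v, Emb (P v) N} (hP : ∀ v, CokTor S Θ (P v)) (a : Π₀ v, E.obj (P v)) :
    inIm S Θ N (smM E j a) := by
  classical
  induction a using DFinsupp.induction with
  | h0 =>
    unfold smM
    rw [map_zero]
    exact inIm_zero N
  | ha v x f _ _ ih =>
    have h1 : smM E j (DFinsupp.single v x + f) = mp E (j v) x + smM E j f := by
      unfold smM
      rw [map_add, sumD_single]
    rw [h1]
    exact inIm_add (inIm_map (j v) (hP v x)) ih

/-- **The cokernel is controlled by a relatively surjective family.** -/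
theorem cokTor_rel (hc : ∀ (G : Type) [Group G] (x : H.obj G), ∃ r, Θ.app G r = α.app G x)
    {V : Type} {P : V → Type} [∀ v, Group (P v)] {N : Type} [Group N]
    {j : ∀ v, Emb (P v) N} (hr : RelSurjM α j) (hP : ∀ v, CokTor S Θ (P v)) :
    CokTor S Θ N := by
  intro c
  obtain ⟨a, t, rfl⟩ := hr c
  refine inIm_add (inIm_sm hP a) ?_
  obtain ⟨r, hr⟩ := hc N t
  exact ⟨1, S.one_mem, r, by rw [hr, one_smul]⟩

/-- **Amalgamated products.** -/
theorem cokTor_amal {R' H' E' : MFun} {Θ' : MNat R' E'} {β : MNat H' E'} (hS : AmalSeq β α)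
    (hc : ∀ (G : Type) [Group G] (x : H'.obj G), ∃ r, Θ'.app G r = β.app G x)
    {K A B P : Type} [Group K] [Group A] [Group B] [Group P] (Q : Sq K A B P)
    (hK : Function.Surjective (α.app K)) (iA : Function.Injective (α.app A))
    (iB : Function.Injective (α.app B)) (hA : CokTor S Θ' A) (hB : CokTor S Θ' B) :
    CokTor S Θ' P := by
  obtain ⟨-, -, d, e, hd, he, hde⟩ := hS
  intro z
  obtain ⟨y, hy⟩ := hK (e K A B P Q z)
  obtain ⟨h1, h2⟩ := (he.2.2.2 K A B P Q (e K A B P Q z)).2 ⟨z, rfl⟩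
  have h3 : mp H Q.i y = 0 := iA (by rw [mp_nat, hy, h1, α.app_zero])
  have h4 : mp H Q.j y = 0 := iB (by rw [mp_nat, hy, h2, α.app_zero])
  obtain ⟨w, hw⟩ := (hd.2.2.2 K A B P Q y).1 ⟨h3, h4⟩
  have h5 : e K A B P Q (z - β.app P w) = 0 := by
    have h6 : z = (z - β.app P w) + β.app P w := by rw [sub_add_cancel]
    have h7 := he.1 K A B P Q (z - β.app P w) (β.app P w)
    rw [← h6, ← hde, hw, hy] at h7
    exact (add_eq_right.1 h7.symm)
  obtain ⟨a, b, hab⟩ := (he.2.2.1 K A B P Q _).1 h5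
  obtain ⟨r, hr⟩ := hc P w
  have h8 : z = (mp E' Q.a a + mp E' Q.b b) + β.app P w := by rw [hab, sub_add_cancel]
  change inIm S Θ' P z
  rw [h8]
  exact inIm_add (inIm_add (inIm_map Q.a (hA a)) (inIm_map Q.b (hB b)))
    ⟨1, S.one_mem, r, by rw [hr, one_smul]⟩

/-- **Directed unions.** -/
theorem cokTor_union {G I : Type} [Group G] [Preorder I] [Nonempty I] (hcE : ContM E)
    (hd : ∀ i j : I, ∃ k, i ≤ k ∧ j ≤ k) {M : I → Subgroup G} (hM : Monotone M)
    (hU : ∀ g, ∃ i, g ∈ M i) (h : ∀ i, CokTor S Θ (M i)) : CokTor S Θ G := by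
  intro c
  obtain ⟨i, y, rfl⟩ := hcE G I hd M hM hU c
  exact inIm_map (subE (M i)) (h i y)

theorem cokTor_iso {G G' : Type} [Group G] [Group G'] (e : G ≃* G') (h : CokTor S Θ G') :
    CokTor S Θ G := by
  intro c
  have h1 := inIm_map (Emb.ofEquiv e.symm) (h (mp E (Emb.ofEquiv e) c))
  have h2 := map_equiv E e.symm c
  rw [MulEquiv.symm_symm] at h2
  rw [h2] at h1
  exact h1

end

end Pool.Agent.Q105.MN
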