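import Pool.Agent.Q262.NV.Short

/-!
# Cokernels of natural transformations; gluing over HNN extensions
-/

set_option autoImplicit false

namespace Pool.Agent.Q105.MG

open Pool.Agent.Q262.NV

/-- The cokernel of `Θ` for `G` is `S`-torsion: each element of `E(G)` has a multiple `s c` with `s` in `S`
in the image of `Θ`. -/
def CokS (S : Submonoid ℕ) {R E : MFun} (Θ : MNat R E) (G : Type) [Group G] : Prop :=
  ∀ c : E.obj G, ∃ s ∈ S, ∃ r : R.obj G, Θ.app G r = s • c

/-- There are boundary homomorphisms `ε : E'(G*) → E(A)` for the HNN extensions `G*` of `G` along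
isomorphisms `φ : A → B`, with `ker ε` contained in the image of `E'(G)`, such that the two images of `ε z`
in `E(G)` agree, and every element `r` of `R(A)` whose two images in `R(G)` agree can be glued: there is `w`
in `R'(G*)` with `ε (Θ' w) = Θ r`. -/
def Gluing {R' R E' E : MFun} (Θ' : MNat R' E') (Θ : MNat R E) : Prop :=
  ∀ (G : Type) [Group G] (P : PIso G), ∃ ε : E'.obj P.Ext → E.obj P.A, IsAdd ε ∧
    (∀ z, ε z = 0 → ∃ y, z = toHnn E' P y) ∧ (∀ z, incA E P (ε z) = incB E P (ε z)) ∧
    ∀ r : R.obj P.A, incA R P r = incB R P r →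
      ∃ w : R'.obj P.Ext, ε (Θ'.app P.Ext w) = Θ.app P.A r

end Pool.Agent.Q105.MG
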