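import Pool.Agent.Q105.NV.Light
import Pool.Agent.Q262.NV.Mono

/-!
# Relatively bijective families for functors on groups and injective homomorphisms: definitions
-/

set_option autoImplicit false
set_option linter.unusedSectionVars false

namespace Pool.Agent.Q105.MN

open Pool.Agent.Q262.NV Pool.Agent.Q105.NV

/-- An injective homomorphism. -/
structure Emb (A B : Type) [Group A] [Group B] where
  /-- the homomorphism -/
  f : A →* B
  inj : Function.Injective f

/-- The map induced by an injective homomorphism. -/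
def mp (H : MFun) {A B : Type} [Group A] [Group B] (e : Emb A B) : H.obj A →+ H.obj B :=
  H.hom e.f e.inj

section rel

variable {V : Type} {P : V → Type} [∀ v, Group (P v)] {N : Type} [Group N]

/-- The sum of the images of the elements `a v` of `H(P v)` in `H(N)`. -/
noncomputable def smM (H : MFun) (j : ∀ v, Emb (P v) N) (a : Π₀ v, H.obj (P v)) : H.obj N :=
  sumD (fun v => mp H (j v)) a

/-- Every element of `E(N)` is the sum of the image of an element of `H(N)` and of finitely many images
of elements of `E(P v)`. -/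
def RelSurjM {H E : MFun} (β : MNat H E) (j : ∀ v, Emb (P v) N) : Prop :=
  ∀ c : E.obj N, ∃ (a : Π₀ v, E.obj (P v)) (t : H.obj N), smM E j a + β.app N t = c

/-- If the image of `t` in `E(N)` is the sum of the images of the elements `a v` of `E(P v)`, then `t` is
the sum of the images of elements of `H(P v)` which are mapped to the `a v`. -/
def RelExactM {H E : MFun} (β : MNat H E) (j : ∀ v, Emb (P v) N) : Prop :=
  ∀ (a : Π₀ v, E.obj (P v)) (t : H.obj N), smM E j a = β.app N t →
    ∃ h : Π₀ v, H.obj (P v), smM H j h = t ∧ ∀ v, β.app (P v) (h v) = a v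

/-- The natural transformation is bijective relative to the family `j v : P v → N`. -/
def RelM {H E : MFun} (β : MNat H E) (j : ∀ v, Emb (P v) N) : Prop :=
  RelSurjM β j ∧ RelExactM β j

end rel

/-- `P` is the amalgamated product of `A` and `B` over `K`. -/
structure Sq (K A B P : Type) [Group K] [Group A] [Group B] [Group P] where
  i : Emb K A
  j : Emb K B
  a : Emb A P
  b : Emb B P
  comm : a.f.comp i.f = b.f.comp j.f
  univ : ∀ (T : Type) [Group T] (f : A →* T) (g : B →* T), f.comp i.f = g.comp j.f →
    ∃! h : P →* T, h.comp a.f = f ∧ h.comp b.f = g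

/-- A morphism of amalgamated products that is injective on the four groups. -/
structure SqHom {K A B P K' A' B' P' : Type} [Group K] [Group A] [Group B] [Group P]
    [Group K'] [Group A'] [Group B'] [Group P'] (S : Sq K A B P) (S' : Sq K' A' B' P') where
  k : Emb K K'
  p : Emb A A'
  q : Emb B B'
  r : Emb P P'
  ci : p.f.comp S.i.f = S'.i.f.comp k.f
  cj : q.f.comp S.j.f = S'.j.f.comp k.f
  ca : r.f.comp S.a.f = S'.a.f.comp p.f
  cb : r.f.comp S.b.f = S'.b.f.comp q.f

/-- Families of maps `H'(P) → H(K)`, for amalgamated products `P` over `K`. -/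
def MVMap (H' H : MFun) : Type 1 :=
  ∀ (K A B P : Type) [Group K] [Group A] [Group B] [Group P], Sq K A B P → H'.obj P → H.obj K

section mv

variable {H' H : MFun} (d : MVMap H' H)

/-- additivity -/
def MVAdd : Prop := ∀ (K A B P : Type) [Group K] [Group A] [Group B] [Group P] (S : Sq K A B P)
  (z z' : H'.obj P), d K A B P S (z + z') = d K A B P S z + d K A B P S z'

/-- naturality -/
def MVNat : Prop := ∀ (K A B P K' A' B' P' : Type) [Group K] [Group A] [Group B] [Group P]
  [Group K'] [Group A'] [Group B'] [Group P'] (S : Sq K A B P) (S' : Sq K' A' B' P')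
  (F : SqHom S S') (z : H'.obj P), d K' A' B' P' S' (mp H' F.r z) = mp H F.k (d K A B P S z)

/-- exactness at the amalgamated product -/
def MVExP : Prop := ∀ (K A B P : Type) [Group K] [Group A] [Group B] [Group P] (S : Sq K A B P)
  (z : H'.obj P), d K A B P S z = 0 ↔ ∃ x y, mp H' S.a x + mp H' S.b y = z

/-- exactness at the amalgamated subgroup -/
def MVExK : Prop := ∀ (K A B P : Type) [Group K] [Group A] [Group B] [Group P] (S : Sq K A B P)
  (c : H.obj K), (mp H S.i c = 0 ∧ mp H S.j c = 0) ↔ ∃ z, d K A B P S z = c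

/-- exactness at the two factors -/
def MVExAB (H : MFun) : Prop := ∀ (K A B P : Type) [Group K] [Group A] [Group B] [Group P]
  (S : Sq K A B P) (x : H.obj A) (y : H.obj B), mp H S.a x + mp H S.b y = 0 →
    ∃ c, mp H S.i c = x ∧ -(mp H S.j c) = y

/-- The boundary maps are additive and natural, and the sequences are exact. -/
def MVBd : Prop := MVAdd d ∧ MVNat d ∧ MVExP d ∧ MVExK d

end mv

/-- The Mayer–Vietoris sequences of amalgamated products for `H'`, `H` and for `E'`, `E`, natural and
compatible with the natural transformations. -/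
def AmalSeq {H' E' H E : MFun} (β : MNat H' E') (α : MNat H E) : Prop :=
  MVExAB H' ∧ MVExAB E' ∧ ∃ (d : MVMap H' H) (e : MVMap E' E), MVBd d ∧ MVBd e ∧
    ∀ (K A B P : Type) [Group K] [Group A] [Group B] [Group P] (S : Sq K A B P) (z : H'.obj P),
      α.app K (d K A B P S z) = e K A B P S (β.app P z)

section sj

variable {X M M' : Type} [Group M] [Group M'] (S : Sj X M) (S' : Sj X M')

/-- The inclusion of the kernel. -/
def inE : Emb S.N M := ⟨S.incl, fun _ _ h => Subtype.ext h⟩

/-- The conjugation with `t` on the kernel. -/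
def cjE (t : M) : Emb S.N S.N := ⟨S.cj t, fun a b h => by
  have h1 : t * (S.incl a) * t⁻¹ = t * (S.incl b) * t⁻¹ := congrArg S.incl h
  exact Subtype.ext (mul_left_cancel (mul_right_cancel h1))⟩

/-- The homomorphism of the kernels that is induced by an injective homomorphism over the free
group. -/
def reE (f : Emb M M') (h : S'.π.comp f.f = S.π) : Emb S.N S'.N := ⟨S.res S' f.f h, fun a b e => by
  have h1 : f.f (S.incl a) = f.f (S.incl b) := congrArg S'.incl e
  exact Subtype.ext (f.inj h1)⟩

end sj

/-- The sum of the elements `c x - t x • c x`, where `t x` acts by conjugation on the kernel. -/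
noncomputable def wgM (H : MFun) {X M : Type} [Group M] (S : Sj X M) (t : X → M)
    (c : X →₀ H.obj S.N) : H.obj S.N :=
  c.sum (fun x a => a - mp H (cjE S (t x)) a)

/-- Exactness at the kernel: an element of `H(N)` dies in `H(M)` if and only if it is a sum of elements
`c x - t x • c x`. -/
def ExNM (H : MFun) : Prop :=
  ∀ (X M : Type) [Group M] (S : Sj X M) (t : X → M), S.IsLift t → ∀ y : H.obj S.N,
    mp H (inE S) y = 0 ↔ ∃ c, wgM H S t c = y

/-- Families of maps `H'(M) → ⨁_X H(N)`, for surjective homomorphisms `M → F(X)` with kernel `N`. -/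
def BMapM (H' H : MFun) : Type 1 :=
  ∀ (X M : Type) [Group M] (S : Sj X M), H'.obj M → (X →₀ H.obj S.N)

section

variable {H' H : MFun} (d : BMapM H' H)

/-- additivity -/
def BAddM : Prop := ∀ (X M : Type) [Group M] (S : Sj X M) (z z' : H'.obj M),
  d X M S (z + z') = d X M S z + d X M S z'

/-- naturality for injective homomorphisms over the free group -/
def BNatM : Prop := ∀ (X M M' : Type) [Group M] [Group M'] (S : Sj X M) (S' : Sj X M')
  (f : Emb M M') (h : S'.π.comp f.f = S.π) (z : H'.obj M) (x : X),
    d X M' S' (mp H' f z) x = mp H (reE S S' f h) (d X M S z x)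

/-- exactness at `H'(M)` -/
def ExMM : Prop := ∀ (X M : Type) [Group M] (S : Sj X M) (z : H'.obj M),
  d X M S z = 0 ↔ ∃ y, mp H' (inE S) y = z

/-- exactness at `⨁_X H(N)` -/
def ExBM : Prop := ∀ (X M : Type) [Group M] (S : Sj X M) (t : X → M), S.IsLift t →
  ∀ c, wgM H S t c = 0 ↔ ∃ z, d X M S z = c

/-- The boundary maps are additive and natural, and the sequences are exact. -/
def IsBdM : Prop := BAddM d ∧ BNatM d ∧ ExMM d ∧ ExBM d

end

/-- Exact sequences for surjective homomorphisms from `M` to the free group on `X` with kernel `N`: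
`⨁_X H'(N) → H'(N) → H'(M) → ⨁_X H(N) → H(N)`, and the same for `E'` and `E`, natural, and compatible
with the natural transformations. -/
def FreeSeqM {H' E' H E : MFun} (β : MNat H' E') (α : MNat H E) : Prop :=
  ExNM H' ∧ ExNM E' ∧ ∃ (d : BMapM H' H) (e : BMapM E' E), IsBdM d ∧ IsBdM e ∧
    ∀ (X M : Type) [Group M] (S : Sj X M) (z : H'.obj M) (x : X),
      α.app S.N (d X M S z x) = e X M S (β.app M z) x

section sub

variable {Γ : Type} [Group Γ]

/-- The inclusion of `L ∩ M` in `M`. -/
def incE (L M : Subgroup Γ) : Emb (L ⊓ M : Subgroup Γ) M :=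
  ⟨Subgroup.inclusion inf_le_right, Subgroup.inclusion_injective _⟩

/-- the inclusion of a subgroup -/
def subE (L : Subgroup Γ) : Emb L Γ := ⟨L.subtype, L.subtype_injective⟩

end sub

/-- The natural transformation is bijective for `G`. -/
def BijM {H E : MFun} (α : MNat H E) (G : Type) [Group G] : Prop :=
  Function.Bijective (α.app G)

/-- The homomorphisms `f` of `A` and `g` of `B` agree on `K`. -/
def AgreeOn {Q : Type} [Group Q] (K : Subgroup Q) {A B : Subgroup Q} {T : Type} [Group T]
    (f : A →* T) (g : B →* T) : Prop :=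
  ∀ x (hA : x ∈ A) (hB : x ∈ B), x ∈ K → f ⟨x, hA⟩ = g ⟨x, hB⟩

/-- The homomorphism `h` of `P` agrees with the homomorphism `f` of `A`. -/
def Extends {Q : Type} [Group Q] {A P : Subgroup Q} {T : Type} [Group T] (h : P →* T)
    (f : A →* T) : Prop :=
  ∀ x (hA : x ∈ A) (hP : x ∈ P), h ⟨x, hP⟩ = f ⟨x, hA⟩

/-- The subgroup `P` is the amalgamated product of its subgroups `A` and `B` over their common subgroup
`K`: homomorphisms of `A` and `B` to a group `T` that agree on `K` extend uniquely to `P`. -/
def IsAmal {Q : Type} [Group Q] (K A B P : Subgroup Q) : Prop :=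
  (K ≤ A ∧ K ≤ B ∧ A ≤ P ∧ B ≤ P) ∧
    ∀ (T : Type) [Group T] (f : A →* T) (g : B →* T), AgreeOn K f g →
      ∃! h : P →* T, Extends h f ∧ Extends h g

/-- The smallest class of subgroups of `Q` that contains the trivial group and is closed under extensions
with free quotient, amalgamated products and directed unions. -/
inductive Hier {Q : Type} [Group Q] : Subgroup Q → Prop
  | one : Hier ⊥
  | free (M M' : Subgroup Q) : Hier M → FreeStep M M' → Hier M'
  | amal (K A B P : Subgroup Q) : Hier K → Hier A → Hier B → IsAmal K A B P → Hier P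
  | union (I : Type) [Preorder I] [Nonempty I] (S : I → Subgroup Q) :
      (∀ i j : I, ∃ k, i ≤ k ∧ j ≤ k) → Monotone S → (∀ i, Hier (S i)) → Hier (⨆ i, S i)

/-- The properties of the functors and the natural transformations. -/
def SetupM (H E : ℤ → MFun) (α : ∀ n, MNat (H n) (E n)) : Prop :=
  ∀ n, FreeSeqM (α (n + 1)) (α n) ∧ AmalSeq (α (n + 1)) (α n) ∧ (ContM (H n) ∧ ContM (E n)) ∧
    ContKerM (E n) ∧ (InnerTrivM (H n) ∧ InnerTrivM (E n)) ∧ BijM (α n) PUnit

section relOn

variable {H E : ℤ → MFun} {Γ : Type} [Group Γ]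

/-- All `α n` are bijective for `M` relative to the subgroups `L v ∩ M`. -/
def RelOn (α : ∀ n, MNat (H n) (E n)) {V : Type} (L : V → Subgroup Γ) (M : Subgroup Γ) : Prop :=
  ∀ n, RelM (α n) (fun v => incE (L v) M)

end relOn

/-- `N` is the internal free product of the subgroups `P u`: homomorphisms of the groups `P u` to a
group `T` extend uniquely to a homomorphism from `N` to `T`. -/
def IsFreeProdM {Γ : Type} [Group Γ] {U : Type} (P : U → Subgroup Γ) (N : Subgroup Γ) : Prop :=
  (∀ u, P u ≤ N) ∧ ∀ (T : Type) [Group T] (f : ∀ u, P u →* T),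
    ∃! F : N →* T, ∀ (u : U) (p : Γ) (hp : p ∈ P u) (hN : p ∈ N), F ⟨p, hN⟩ = f u ⟨p, hp⟩

end Pool.Agent.Q105.MN
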