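import Pool.Agent.Q105.MN.More

/-!
# Relatively bijective families: members with bijective maps
-/

set_option autoImplicit false
set_option linter.unusedSectionVars false

namespace Pool.Agent.Q105.MN

open Pool.Agent.Q262.NV Pool.Agent.Q105.NV

theorem bijM_iso {H E : MFun} (α : MNat H E) {G G' : Type} [Group G] [Group G'] (e : G ≃* G')
    (h : BijM α G') : BijM α G := by
  refine ⟨injM_iso α e h.1, fun c => ?_⟩
  obtain ⟨x, hx⟩ := h.2 (mp E (Emb.ofEquiv e) c)
  refine ⟨mp H (Emb.ofEquiv e.symm) x, ?_⟩
  rw [mp_nat, hx]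
  exact map_equiv E e.symm c

section

variable {W : Type} {P : W → Type} [∀ w, Group (P w)] {N : Type} [Group N]
  {j : ∀ w, Emb (P w) N} {H E : MFun} {β : MNat H E}

theorem smM_nt (h : Π₀ w, H.obj (P w)) :
    smM E j (ntM β P h) = β.app N (smM H j h) := by
  unfold smM ntM
  rw [sumD_mapD]
  have h1 := hom_sumD (β.hom N) (fun w => mp H (j w)) h
  refine Eq.trans (sumD_congr (fun w x => ?_) h) h1.symm
  exact (mp_nat β (j w) x).symm

/-- partial lifts -/
theorem lift_on (s : W → Prop) (hb : ∀ w, ¬ s w → BijM β (P w)) (a : Π₀ w, E.obj (P w)) :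
    ∃ h : Π₀ w, H.obj (P w), (∀ w, ¬ s w → β.app (P w) (h w) = a w) ∧ ∀ w, s w → h w = 0 := by
  classical
  have h1 : ∀ w, ∃ x : H.obj (P w), (¬ s w → β.app (P w) x = a w) := by
    intro w
    by_cases hw : s w
    · exact ⟨0, fun h => absurd hw h⟩
    · obtain ⟨x, hx⟩ := (hb w hw).2 (a w)
      exact ⟨x, fun _ => hx⟩
  choose x hx using h1
  refine ⟨DFinsupp.mk a.support (fun w => if s w then 0 else x w), fun w hw => ?_, fun w hw => ?_⟩
  · rw [DFinsupp.mk_apply]
    split_ifs with h2
    · exact hx w hw
    · rw [β.app_zero]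
      exact (DFinsupp.notMem_support_iff.1 h2).symm
  · rw [DFinsupp.mk_apply]
    split_ifs with h2
    · rfl
    · rfl

/-- everything is bijective -/
theorem relM_bij (hN : BijM β N) (hP : ∀ w, BijM β (P w)) : RelM β j := by
  constructor
  · intro c
    obtain ⟨t, ht⟩ := hN.2 c
    refine ⟨0, t, ?_⟩
    unfold smM
    rw [map_zero, zero_add, ht]
  · intro a t hat
    obtain ⟨h, h1, -⟩ := lift_on (fun _ => False) (fun w _ => hP w) a
    refine ⟨h, hN.1 ?_, fun w => h1 w (fun h => h)⟩
    rw [← smM_nt, ← hat]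
    congr 1
    exact mapD_ext fun w => h1 w (fun h => h)

/-- one member is the whole group -/
theorem relM_one [DecidableEq W] (w₀ : W) (e : P w₀ ≃* N) (he : ∀ p, (j w₀).f p = e p)
    (hb : ∀ w, w ≠ w₀ → BijM β (P w)) : RelM β j := by
  have hj : ∀ (K : MFun) (x : K.obj N), mp K (j w₀) (mp K (Emb.ofEquiv e.symm) x) = x := by
    intro K x
    have h1 : (j w₀).f = (Emb.ofEquiv e).f := MonoidHom.ext he
    rw [mp_congr K h1]
    exact map_equiv K e x
  have hj' : ∀ (K : MFun) (x : K.obj (P w₀)), mp K (Emb.ofEquiv e.symm) (mp K (j w₀) x) = x := by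
    intro K x
    have h1 : (j w₀).f = (Emb.ofEquiv e).f := MonoidHom.ext he
    rw [mp_congr K h1]
    exact map_equiv K e.symm x
  constructor
  · intro c
    refine ⟨DFinsupp.single w₀ (mp E (Emb.ofEquiv e.symm) c), 0, ?_⟩
    unfold smM
    rw [sumD_single, hj, β.app_zero, add_zero]
  · intro a t hat
    obtain ⟨h, h1, h2⟩ := lift_on (β := β) (fun w => w = w₀) (fun w hw => hb w hw) a
    have h3 : a = ntM β P h + DFinsupp.single w₀ (a w₀) := by
      refine mapD_ext fun w => ?_
      rw [DFinsupp.add_apply]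
      by_cases hw : w = w₀
      · subst hw
        rw [DFinsupp.single_eq_same]
        change a w = β.app (P w) (h w) + a w
        rw [h2 w rfl, β.app_zero, zero_add]
      · rw [DFinsupp.single_eq_of_ne hw, add_zero]
        exact (h1 w hw).symm
    have h4 : smM E j a = β.app N (smM H j h) + mp E (j w₀) (a w₀) := by
      conv_lhs => rw [h3]
      unfold smM
      rw [map_add, sumD_single]
      congr 1
      exact smM_nt h
    refine ⟨h + DFinsupp.single w₀ (mp H (Emb.ofEquiv e.symm) (t - smM H j h)), ?_, fun w => ?_⟩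
    · unfold smM
      rw [map_add, sumD_single]
      change smM H j h + mp H (j w₀) (mp H (Emb.ofEquiv e.symm) (t - smM H j h)) = t
      rw [hj, add_sub_cancel]
    · rw [DFinsupp.add_apply]
      by_cases hw : w = w₀
      · subst hw
        rw [DFinsupp.single_eq_same, h2 w rfl, zero_add, mp_nat]
        change mp E (Emb.ofEquiv e.symm) (β.hom N (t - smM H j h)) = a w
        rw [map_sub]
        change mp E (Emb.ofEquiv e.symm) (β.app N t - β.app N (smM H j h)) = a w
        rw [← hat, h4, add_sub_cancel_left, hj']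
      · rw [DFinsupp.single_eq_of_ne hw, add_zero]
        exact h1 w hw

section sub

variable (s : W → Prop) {A : W → Type} [∀ w, AddCommGroup (A w)] {T : Type} [AddCommGroup T]

/-- restriction -/
noncomputable def rs (s : W → Prop) (A : W → Type) [∀ w, AddCommGroup (A w)] :
    (Π₀ w, A w) →+ (Π₀ w : {w // s w}, A w) := by
  classical
  exact DFinsupp.subtypeDomainAddMonoidHom A s

/-- extension by zero -/
noncomputable def xt (s : W → Prop) (A : W → Type) [∀ w, AddCommGroup (A w)] :
    (Π₀ w : {w // s w}, A w) →+ (Π₀ w, A w) := by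
  classical
  exact sumD (fun w => DFinsupp.singleAddHom A w.1)

theorem rs_apply (b : Π₀ w, A w) (w : {w // s w}) : rs s A b w = b w := rfl

theorem sum_xt (u : ∀ w, A w →+ T) (a : Π₀ w : {w // s w}, A w) :
    sumD u (xt s A a) = sumD (fun w : {w // s w} => u w) a := by
  classical
  unfold xt
  rw [hom_sumD]
  refine sumD_congr (fun w x => ?_) a
  change sumD u (DFinsupp.single w.1 x) = u w x
  rw [sumD_single]

theorem xt_out (a : Π₀ w : {w // s w}, A w) {w : W} (hw : ¬ s w) : xt s A a w = 0 := by
  classical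
  refine homD_ext (k := (DFinsupp.evalAddMonoidHom w).comp (xt s A)) (k' := 0) (fun v x => ?_) a
  change (xt s A (DFinsupp.single v x)) w = 0
  unfold xt
  rw [sumD_single]
  change (DFinsupp.single v.1 x : Π₀ w, A w) w = 0
  rw [DFinsupp.single_eq_of_ne]
  rintro rfl
  exact hw v.2

theorem xt_in (a : Π₀ w : {w // s w}, A w) (w : {w // s w}) : xt s A a w.1 = a w := by
  classical
  refine homD_ext (k := (DFinsupp.evalAddMonoidHom w.1).comp (xt s A))
    (k' := DFinsupp.evalAddMonoidHom w) (fun v x => ?_) a
  change (xt s A (DFinsupp.single v x)) w.1 =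
    (DFinsupp.single v x : Π₀ w : {w // s w}, A w) w
  unfold xt
  rw [sumD_single]
  change (DFinsupp.single v.1 x : Π₀ w, A w) w.1 = _
  by_cases h : w = v
  · subst h
    have e1 : (DFinsupp.single w.1 x : Π₀ w, A w) w.1 = x := DFinsupp.single_eq_same
    have e2 : (DFinsupp.single w x : Π₀ w : {w // s w}, A w) w = x := DFinsupp.single_eq_same
    exact e1.trans e2.symm
  · have e1 : (DFinsupp.single v.1 x : Π₀ w, A w) w.1 = 0 :=
      DFinsupp.single_eq_of_ne (fun h' => h (Subtype.ext h'))
    have e2 : (DFinsupp.single v x : Π₀ w : {w // s w}, A w) w = 0 :=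
      DFinsupp.single_eq_of_ne h
    exact e1.trans e2.symm

theorem xt_rs {b : Π₀ w, A w} (hb : ∀ w, ¬ s w → b w = 0) : xt s A (rs s A b) = b := by
  refine mapD_ext fun w => ?_
  by_cases hw : s w
  · exact xt_in s (rs s A b) ⟨w, hw⟩
  · rw [xt_out s _ hw, hb w hw]

end sub

/-- **Members with bijective maps can be dropped.** -/
theorem relM_drop (s : W → Prop) (hb : ∀ w, ¬ s w → BijM β (P w)) (h : RelM β j) :
    RelM β (fun w : {w // s w} => j w) := by
  classical
  constructor
  · intro c
    obtain ⟨a, t, rfl⟩ := h.1 c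
    obtain ⟨y, hy, hy'⟩ := lift_on (β := β) s hb a
    have h1 : ∀ w, ¬ s w → (a - ntM β P y) w = 0 := by
      intro w hw
      change a w - β.app (P w) (y w) = 0
      rw [hy w hw, sub_self]
    refine ⟨rs s _ (a - ntM β P y), smM H j y + t, ?_⟩
    have h2 : smM E (fun w : {w // s w} => j w) (rs s _ (a - ntM β P y)) =
        smM E j (a - ntM β P y) := by
      unfold smM
      rw [← sum_xt s (fun w => mp E (j w)), xt_rs s h1]
    have h3 : smM E j (a - ntM β P y) = smM E j a - β.app N (smM H j y) := by
      rw [← smM_nt]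
      unfold smM
      rw [map_sub]
    rw [h2, h3]
    change _ + β.hom N (smM H j y + t) = _
    rw [map_add]
    change smM E j a - β.app N (smM H j y) + (β.app N (smM H j y) + β.app N t) = _
    abel
  · intro a t hat
    obtain ⟨y, hy, hy'⟩ := h.2 (xt s _ a) t (by
      rw [← hat]
      exact sum_xt s (fun w => mp E (j w)) a)
    have h1 : ∀ w, ¬ s w → y w = 0 := by
      intro w hw
      apply (hb w hw).1
      have h3 := xt_out (A := fun v => E.obj (P v)) s a hw
      rw [hy', h3, β.app_zero]
    refine ⟨rs s _ y, ?_, fun w => ?_⟩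
    · rw [← hy]
      unfold smM
      rw [← sum_xt s (fun w => mp H (j w)), xt_rs s h1]
    · rw [rs_apply, hy' w.1]
      exact xt_in (A := fun v => E.obj (P v)) s a w

/-- **Members with bijective maps can be added.** -/
theorem relM_add (s : W → Prop) (hb : ∀ w, ¬ s w → BijM β (P w))
    (h : RelM β (fun w : {w // s w} => j w)) : RelM β j := by
  classical
  constructor
  · intro c
    obtain ⟨a, t, rfl⟩ := h.1 c
    refine ⟨xt s _ a, t, ?_⟩
    congr 1
    exact sum_xt s (fun w => mp E (j w)) a
  · intro a t hat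
    obtain ⟨y, hy, hy'⟩ := lift_on (β := β) s hb a
    have h1 : ∀ w, ¬ s w → (a - ntM β P y) w = 0 := by
      intro w hw
      change a w - β.app (P w) (y w) = 0
      rw [hy w hw, sub_self]
    have h2 : smM E (fun w : {w // s w} => j w) (rs s _ (a - ntM β P y)) =
        smM E j (a - ntM β P y) := by
      unfold smM
      rw [← sum_xt s (fun w => mp E (j w)), xt_rs s h1]
    have h3 : smM E j (a - ntM β P y) = β.app N (t - smM H j y) := by
      change _ = β.hom N (t - smM H j y)
      rw [map_sub]
      change _ = β.app N t - β.app N (smM H j y)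
      rw [← smM_nt, ← hat]
      unfold smM
      rw [map_sub]
    obtain ⟨z, hz, hz'⟩ := h.2 _ _ (h2.trans h3)
    refine ⟨xt s _ z + y, ?_, fun w => ?_⟩
    · have h4 : smM H j (xt s _ z + y) = smM H j (xt s _ z) + smM H j y := by
        unfold smM
        rw [map_add]
      have h5 : smM H j (xt s _ z) = smM H (fun w : {w // s w} => j w) z :=
        sum_xt s (fun w => mp H (j w)) z
      rw [h4, h5, hz, sub_add_cancel]
    · change β.hom (P w) (xt s (fun v => H.obj (P v)) z w + y w) = a w
      rw [map_add]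
      change β.app (P w) (xt s (fun v => H.obj (P v)) z w) + β.app (P w) (y w) = a w
      by_cases hw : s w
      · rw [hy' w hw, β.app_zero, add_zero]
        have h4 := xt_in (A := fun v => H.obj (P v)) s z ⟨w, hw⟩
        rw [h4]
        refine (hz' ⟨w, hw⟩).trans ?_
        change a w - β.app (P w) (y w) = a w
        rw [hy' w hw, β.app_zero, sub_zero]
      · have h4 := xt_out (A := fun v => H.obj (P v)) s z hw
        rw [h4, β.app_zero, zero_add, hy w hw]

end

end Pool.Agent.Q105.MN
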