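import Pool.Agent.Q105.MN.Basic
import Pool.Agent.Q105.NV.Light

/-!
# Relatively bijective families and extensions with free quotient
-/

set_option autoImplicit false
set_option linter.unusedSectionVars false

namespace Pool.Agent.Q105.MN

open Pool.Agent.Q262.NV Pool.Agent.Q105.NV

/-- the homomorphism -/
noncomputable def wH (H : MFun) {X M : Type} [Group M] (S : Sj X M) (t : X → M) :
    (X →₀ H.obj S.N) →+ H.obj S.N :=
  Finsupp.liftAddHom (fun x => AddMonoidHom.id _ - mp H (cjE S (t x)))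

theorem wH_eq (H : MFun) {X M : Type} [Group M] (S : Sj X M) (t : X → M)
    (c : X →₀ H.obj S.N) : wH H S t c = wgM H S t c := by
  unfold wH
  rw [Finsupp.liftAddHom_apply]
  rfl

theorem wH_single (H : MFun) {X M : Type} [Group M] (S : Sj X M) (t : X → M) (x : X)
    (c : H.obj S.N) : wH H S t (Finsupp.single x c) = c - mp H (cjE S (t x)) c := by
  unfold wH
  rw [Finsupp.liftAddHom_apply_single]
  rfl

section step

variable {V X M : Type} [Group M] {L : V → Type} [∀ v, Group (L v)] {f : ∀ v, Emb (L v) M}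
  {S : Sj X M} {S' : ∀ v, Sj X (L v)} (hS : ∀ v, S.π.comp (f v).f = (S' v).π)
  {t : X → M} {s : ∀ v, X → L v}

theorem mp_cj {H : MFun} (hi : InnerTrivM H) {t t' : M} (h : S.π t = S.π t') (x : H.obj S.N) :
    mp H (cjE S t) x = mp H (cjE S t') x := by
  have hm : t * t'⁻¹ ∈ S.π.ker := by
    rw [MonoidHom.mem_ker, map_mul, map_inv, h, mul_inv_cancel]
  let n : S.N := ⟨_, hm⟩
  have h1 : (cjE S t).f = (MulAut.conj n).toMonoidHom.comp (cjE S t').f := by
    refine MonoidHom.ext fun a => Subtype.ext ?_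
    change t * (S.incl a) * t⁻¹ = (t * t'⁻¹) * (t' * (S.incl a) * t'⁻¹) * (t * t'⁻¹)⁻¹
    group
  have h2 : mp H (cjE S t) x = mp H (⟨(MulAut.conj n).toMonoidHom, (MulAut.conj n).injective⟩ :
      Emb S.N S.N) (mp H (cjE S t') x) := by
    rw [mp_comp]
    exact mp_congr H h1 x
  rw [h2]
  exact hi S.N n _

theorem wH_nat_j {H : MFun} (hi : InnerTrivM H) (ht : S.IsLift t) (v : V)
    (hs : (S' v).IsLift (s v)) (c : X →₀ H.obj (S' v).N) :
    mp H (reE (S' v) S (f v) (hS v)) (wH H (S' v) (s v) c) =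
      wH H S t (mapX (mp H (reE (S' v) S (f v) (hS v))) c) := by
  induction c using Finsupp.induction_linear with
  | zero => rw [map_zero, map_zero, map_zero, map_zero]
  | add c c' hc hc' => rw [map_add, map_add, hc, hc', map_add, map_add]
  | single x a =>
    rw [wH_single, mapX_single, wH_single, map_sub]
    congr 1
    have h1 : S.π (t x) = S.π ((f v).f (s v x)) := by
      rw [ht x, ← hs x, ← hS v]
      rfl
    rw [mp_cj hi h1]
    refine mp_sq H (MonoidHom.ext fun b => Subtype.ext ?_) a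
    change (f v).f (s v x * ((S' v).incl b) * (s v x)⁻¹) =
      (f v).f (s v x) * (f v).f ((S' v).incl b) * ((f v).f (s v x))⁻¹
    rw [map_mul, map_mul, map_inv]

theorem wH_nat {H E : MFun} (α : MNat H E) (c : X →₀ H.obj S.N) :
    α.app S.N (wH H S t c) = wH E S t (mapX (α.hom S.N) c) := by
  induction c using Finsupp.induction_linear with
  | zero => rw [map_zero, α.app_zero, map_zero, map_zero]
  | add c c' hc hc' => rw [map_add, α.app_add, hc, hc', map_add, map_add]
  | single x a =>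
    rw [wH_single, mapX_single, wH_single]
    change α.hom S.N (a - mp H _ a) = _
    rw [map_sub]
    congr 1
    exact mp_nat α _ a

/-- the maps of the chase -/
noncomputable def fX (X : Type) {V : Type} {P : V → Type} [∀ v, Group (P v)] {N : Type} [Group N]
    {H E : MFun} (β : MNat H E) (j : ∀ v, Emb (P v) N) :
    (Π₀ v, X →₀ H.obj (P v)) →+ (Π₀ v, X →₀ E.obj (P v)) × (X →₀ H.obj N) :=
  (mapD (fun v => mapX (β.hom (P v)))).prod (sumD (fun v => mapX (-(mp H (j v)))))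

/-- the maps of the chase -/
noncomputable def gX (X : Type) {V : Type} {P : V → Type} [∀ v, Group (P v)] {N : Type} [Group N]
    {H E : MFun} (β : MNat H E) (j : ∀ v, Emb (P v) N) :
    (Π₀ v, X →₀ E.obj (P v)) × (X →₀ H.obj N) →+ (X →₀ E.obj N) :=
  (sumD (fun v => mapX (mp E (j v)))).coprod (mapX (β.hom N))

theorem gX_fX {V : Type} {P : V → Type} [∀ v, Group (P v)] {N : Type} [Group N]
    {H E : MFun} (β : MNat H E) (j : ∀ v, Emb (P v) N) (a : Π₀ v, X →₀ H.obj (P v)) :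
    gX X β j (fX X β j a) = 0 := by
  refine zzM (u := fun v => mapX (mp E (j v))) (w := fun v => mapX (β.hom (P v)))
    (k := mapX (β.hom N)) (z := fun v => mapX (-(mp H (j v)))) (fun v c => ?_) a
  ext x
  change mp E (j v) (β.app (P v) (c x)) + β.hom N (-(mp H (j v) (c x))) = 0
  rw [map_neg]
  change mp E (j v) (β.app (P v) (c x)) + -(β.app N (mp H (j v) (c x))) = 0
  rw [mp_nat, add_neg_cancel]

include hS in
/-- **Extensions with free quotient.** -/
theorem free_step {H' E' H E : MFun} {β : MNat H' E'} {α : MNat H E} (hF : FreeSeqM β α)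
    (hcH : ExNM H) (hcE : ExNM E) (hiE' : InnerTrivM E')
    (hiH : InnerTrivM H) (hiE : InnerTrivM E)
    (hβ : RelM β (fun v => reE (S' v) S (f v) (hS v)))
    (hα : RelM α (fun v => reE (S' v) S (f v) (hS v)))
    (hP : ∀ v, InjM α (S' v).N) (hL : ∀ v, InjM α (L v)) :
    RelM β f := by
  classical
  obtain ⟨hcH', hcE', d, e, hd, he, hde⟩ := hF
  have ht : ∃ t : X → M, S.IsLift t := ⟨fun x => (S.surj (FreeGroup.of x)).choose,
    fun x => (S.surj (FreeGroup.of x)).choose_spec⟩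
  obtain ⟨t, ht⟩ := ht
  have hs : ∀ v, ∃ s : X → L v, (S' v).IsLift s := fun v =>
    ⟨fun x => ((S' v).surj (FreeGroup.of x)).choose,
      fun x => ((S' v).surj (FreeGroup.of x)).choose_spec⟩
  choose s hs using hs
  let j : ∀ v, Emb (S' v).N S.N := fun v => reE (S' v) S (f v) (hS v)
  let dd : ∀ v, H'.obj (L v) →+ (X →₀ H.obj (S' v).N) := fun v =>
    AddMonoidHom.mk' (d _ _ (S' v)) (hd.1 _ _ (S' v))
  let ee : ∀ v, E'.obj (L v) →+ (X →₀ E.obj (S' v).N) := fun v =>
    AddMonoidHom.mk' (e _ _ (S' v)) (he.1 _ _ (S' v))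
  let d0 : H'.obj M →+ (X →₀ H.obj S.N) := AddMonoidHom.mk' (d _ _ S) (hd.1 _ _ S)
  let e0 : E'.obj M →+ (X →₀ E.obj S.N) := AddMonoidHom.mk' (e _ _ S) (he.1 _ _ S)
  let a23 := mapD (fun v => mp H' (inE (S' v)))
  let a34 := mapD dd
  let a45 := mapD (fun v => wH H (S' v) (s v))
  let a56 := mapD (fun v => mp H (inE (S' v)))
  let b12 := (mapD (fun v => wH E' (S' v) (s v))).prodMap (wH H' S t)
  let b23 := (mapD (fun v => mp E' (inE (S' v)))).prodMap (mp H' (inE S))
  let b34 := (mapD ee).prodMap d0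
  let b45 := (mapD (fun v => wH E (S' v) (s v))).prodMap (wH H S t)
  let b56 := (mapD (fun v => mp E (inE (S' v)))).prodMap (mp H (inE S))
  have sub : ∀ (J : MFun) v (x : J.obj (S' v).N),
      mp J (f v) (mp J (inE (S' v)) x) = mp J (inE S) (mp J (j v) x) := by
    intro J v x
    have h : (f v).f.comp (inE (S' v)).f = (inE S).f.comp (j v).f :=
      MonoidHom.ext fun b => rfl
    exact mp_sq J h x
  -- the squares
  have q23 : ∀ a, fM β f (a23 a) = b23 (fM β j a) := by
    intro a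
    refine Prod.ext (mapD_ext fun v => mp_nat β _ _) ?_
    change sumD (fun v => -(mp H' (f v))) (mapD _ a) =
      mp H' (inE S) (sumD (fun v => -(mp H' (j v))) a)
    rw [sumD_mapD, hom_sumD]
    refine sumD_congr (fun v x => ?_) a
    change -(mp H' (f v) (mp H' _ x)) = mp H' _ (-(mp H' _ x))
    rw [map_neg, sub]
  have q56 : ∀ a, fM α f (a56 a) = b56 (fM α j a) := by
    intro a
    refine Prod.ext (mapD_ext fun v => mp_nat α _ _) ?_
    change sumD (fun v => -(mp H (f v))) (mapD _ a) =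
      mp H (inE S) (sumD (fun v => -(mp H (j v))) a)
    rw [sumD_mapD, hom_sumD]
    refine sumD_congr (fun v x => ?_) a
    change -(mp H (f v) (mp H _ x)) = mp H _ (-(mp H _ x))
    rw [map_neg, sub]
  have q34 : ∀ a, fX X α j (a34 a) = b34 (fM β f a) := by
    intro a
    refine Prod.ext (mapD_ext fun v => Finsupp.ext fun x => hde _ _ _ _ x) ?_
    change sumD (fun v => mapX (-(mp H (j v)))) (mapD _ a) =
      d0 (sumD (fun v => -(mp H' (f v))) a)
    rw [sumD_mapD, hom_sumD]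
    refine sumD_congr (fun v z => Finsupp.ext fun x => ?_) a
    change -(mp H (j v) (dd v z x)) = d0 (-(mp H' (f v) z)) x
    rw [map_neg, Finsupp.neg_apply]
    exact congrArg Neg.neg (hd.2.1 _ _ _ (S' v) S (f v) (hS v) z x).symm
  have q45 : ∀ a, fM α j (a45 a) = b45 (fX X α j a) := by
    intro a
    refine Prod.ext (mapD_ext fun v => wH_nat α _) ?_
    change sumD (fun v => -(mp H (j v))) (mapD _ a) =
      wH H S t (sumD (fun v => mapX (-(mp H (j v)))) a)
    rw [sumD_mapD, hom_sumD]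
    refine sumD_congr (fun v c => ?_) a
    change -(mp H (j v) (wH H _ (s v) c)) = wH H S t (mapX (-(mp H (j v))) c)
    rw [mapX_neg, map_neg, wH_nat_j hS hiH ht v (hs v)]
  have r12 : ∀ b, gM β j (b12 b) = wH E' S t (gX X β j b) := by
    rintro ⟨a, c⟩
    change sumD (fun v => mp E' (j v)) (mapD _ a) + β.app _ (wH H' S t c) =
      wH E' S t (sumD (fun v => mapX (mp E' (j v))) a + mapX (β.hom _) c)
    rw [map_add, sumD_mapD, hom_sumD, wH_nat]
    congr 1
    exact sumD_congr (fun v c => wH_nat_j hS hiE' ht v (hs v) c) a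
  have r45 : ∀ b, gM α j (b45 b) = wH E S t (gX X α j b) := by
    rintro ⟨a, c⟩
    change sumD (fun v => mp E (j v)) (mapD _ a) + α.app _ (wH H S t c) =
      wH E S t (sumD (fun v => mapX (mp E (j v))) a + mapX (α.hom _) c)
    rw [map_add, sumD_mapD, hom_sumD, wH_nat]
    congr 1
    exact sumD_congr (fun v c => wH_nat_j hS hiE ht v (hs v) c) a
  have r23 : ∀ b, gM β f (b23 b) = mp E' (inE S) (gM β j b) := by
    rintro ⟨a, c⟩
    change sumD (fun v => mp E' (f v)) (mapD _ a) + β.app _ (mp H' _ c) =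
      mp E' (inE S) (sumD (fun v => mp E' (j v)) a + β.app _ c)
    rw [map_add, sumD_mapD, hom_sumD, mp_nat]
    congr 1
    exact sumD_congr (fun v x => sub E' v x) a
  have r34 : ∀ b, gX X α j (b34 b) = e0 (gM β f b) := by
    rintro ⟨a, c⟩
    change sumD (fun v => mapX (mp E (j v))) (mapD _ a) + mapX (α.hom _) (d0 c) =
      e0 (sumD (fun v => mp E' (f v)) a + β.app _ c)
    rw [map_add, sumD_mapD, hom_sumD]
    congr 1
    · refine sumD_congr (fun v z => Finsupp.ext fun x => ?_) a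
      exact (he.2.1 _ _ _ (S' v) S (f v) (hS v) z x).symm
    · exact Finsupp.ext fun x => hde _ _ _ _ x
  -- exactness
  have s1 : ∀ c, ∃ b, gX X β j b = c := by
    intro c
    obtain ⟨a, u, h⟩ := surj_X (X := X) (u := fun v => mp E' (j v)) (k := β.hom _) hβ.1 c
    exact ⟨(a, u), h⟩
  have s4 : ∀ c, ∃ b, gX X α j b = c := by
    intro c
    obtain ⟨a, u, h⟩ := surj_X (X := X) (u := fun v => mp E (j v)) (k := α.hom _) hα.1 c
    exact ⟨(a, u), h⟩
  have x4 : ∀ b, gX X α j b = 0 → ∃ a, fX X α j a = b := by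
    rintro ⟨a, u⟩ h
    obtain ⟨b, h1, h2⟩ := exact_X (A := fun v => E.obj (S' v).N)
      (B := fun v => H.obj (S' v).N) (u := fun v => mp E (j v))
      (k := α.hom S.N) (w := fun v => α.hom (S' v).N)
      (z := fun v => -(mp H (j v))) (fun a u h => by
        obtain ⟨b, hb⟩ := hα.exact (a, u) h
        exact ⟨b, congrArg Prod.fst hb, congrArg Prod.snd hb⟩) a u h
    exact ⟨b, Prod.ext h1 h2⟩
  have hN0 : ∀ (J : MFun) (hJ : ExNM J) (v : V) (c : X →₀ J.obj (S' v).N),
      mp J (inE (S' v)) (wH J (S' v) (s v) c) = 0 := fun J hJ v c =>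
    (hJ _ _ (S' v) _ (hs v) _).2 ⟨c, (wH_eq J (S' v) (s v) c).symm⟩
  have hN1 : ∀ (J : MFun) (hJ : ExNM J) (c : X →₀ J.obj S.N),
      mp J (inE S) (wH J S t c) = 0 := fun J hJ c =>
    (hJ _ _ S _ ht _).2 ⟨c, (wH_eq J S t c).symm⟩
  refine relM_of (chase_surj (a45 := a45) (a56 := a56) (b23 := b23) (b34 := b34) (b45 := b45)
      (b56 := b56) (c23 := mp E' (inE S)) (c34 := e0) (c45 := wH E S t)
      (f4 := fX X α j) (f5 := fM α j) (f6 := fM α f) (g2 := gM β j)
      (g3 := gM β f) (g4 := gX X α j) (g5 := gM α j)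
      (exD (u := fun v => wH H (S' v) (s v)) (w := fun v => mp H (inE (S' v)))
        fun v b hb => ?_) ?_ ?_ ?_ (fun c hc => (he.2.2.1 _ _ S c).1 hc)
      q45 q56 r34 r45 r23 (gX_fX α _) s4 hβ.surj hα.exact (fM_inj hL))
    (chase_exact (a23 := a23) (a34 := a34) (a45 := a45) (b12 := b12) (b23 := b23)
      (b34 := b34) (b45 := b45) (c12 := wH E' S t) (c23 := mp E' (inE S)) (c34 := e0)
      (f2 := fM β j) (f3 := fM β f) (f4 := fX X α j) (f5 := fM α j)
      (g1 := gX X β j) (g2 := gM β j) (g3 := gM β f) (g4 := gX X α j)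
      (exD (u := dd) (w := fun v => wH H (S' v) (s v)) fun v b hb => ?_) ?_ ?_ ?_ ?_
      q23 q34 q45 r12 r23 r34 (gM_fM (β := β)) x4 (fM_inj hP) s1 hβ.exact)
  · obtain ⟨c, hc⟩ := (hcH _ _ (S' v) _ (hs v) b).1 hb
    exact ⟨c, (wH_eq H (S' v) (s v) c).trans hc⟩
  · rintro ⟨a, c⟩ hb
    obtain ⟨a', ha'⟩ := exD (u := ee) (w := fun v => wH E (S' v) (s v))
      (fun v b hb => (he.2.2.2 _ _ (S' v) _ (hs v) b).1 ((wH_eq E (S' v) (s v) b).symm.trans hb))
      a (congrArg Prod.fst hb)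
    obtain ⟨c', hc'⟩ := (hd.2.2.2 _ _ S _ ht c).1 ((wH_eq H S t c).symm.trans
      (congrArg Prod.snd hb))
    exact ⟨(a', c'), Prod.ext ha' hc'⟩
  · rintro ⟨a, c⟩
    exact Prod.ext (mapD_ext fun v => hN0 E hcE v (a v)) (hN1 H hcH c)
  · intro c
    exact (wH_eq E S t _).trans ((he.2.2.2 _ _ S _ ht _).2 ⟨c, rfl⟩)
  · obtain ⟨c, hc⟩ := (hd.2.2.2 _ _ (S' v) _ (hs v) b).1 ((wH_eq H (S' v) (s v) b).symm.trans hb)
    exact ⟨c, hc⟩
  · rintro ⟨a, c⟩
    refine Prod.ext (mapD_ext fun v => ?_) ?_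
    · exact (wH_eq E (S' v) (s v) _).trans ((he.2.2.2 _ _ (S' v) _ (hs v) _).2 ⟨a v, rfl⟩)
    · exact (wH_eq H S t _).trans ((hd.2.2.2 _ _ S _ ht _).2 ⟨c, rfl⟩)
  · rintro ⟨a, c⟩ hb
    obtain ⟨a', ha'⟩ := exD (u := fun v => mp E' (inE (S' v))) (w := ee)
      (fun v b hb => (he.2.2.1 _ _ (S' v) b).1 hb) a (congrArg Prod.fst hb)
    obtain ⟨c', hc'⟩ := (hd.2.2.1 _ _ S c).1 (congrArg Prod.snd hb)
    exact ⟨(a', c'), Prod.ext ha' hc'⟩
  · rintro ⟨a, c⟩
    exact Prod.ext (mapD_ext fun v => hN0 E' hcE' v (a v)) (hN1 H' hcH' c)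
  · intro c hc
    obtain ⟨c', hc'⟩ := (hcE' _ _ S _ ht c).1 hc
    exact ⟨c', (wH_eq E' S t c').trans hc'⟩

end step

end Pool.Agent.Q105.MN
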