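import Pool.Agent.Q105.MN.Drop
import Pool.Agent.Q105.FJ.TriFam

/-!
# Relatively bijective families: free products
-/

set_option autoImplicit false
set_option linter.unusedSectionVars false

namespace Pool.Agent.Q105.MN

open Monoid Pool.Agent.Q262.NV Pool.Agent.Q105.NV Pool.Agent.Q105.FJ

/-- the trivial subgroup -/
def oneE (A : Type) [Group A] : Emb PUnit A := ⟨1, fun _ _ _ => rfl⟩

theorem hom_sub {A T : Type} [Group A] [Group T] (h : Subsingleton A) (f g : A →* T) : f = g :=
  MonoidHom.ext fun a => by rw [Subsingleton.elim a 1, map_one, map_one]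

/-- the free product with a trivial group -/
def sqR {A B P : Type} [Group A] [Group B] [Group P] (a : Emb A P) (b : Emb B P)
    (ha : Function.Surjective a.f) (hB : Subsingleton B) : Sq PUnit A B P where
  i := oneE A
  j := oneE B
  a := a
  b := b
  comm := hom_sub inferInstance _ _
  univ := fun T _ f g _ => by
    let e : A ≃* P := MulEquiv.ofBijective a.f ⟨a.inj, ha⟩
    refine ⟨f.comp e.symm.toMonoidHom, ⟨MonoidHom.ext fun x => ?_, hom_sub hB _ _⟩, ?_⟩
    · change f (e.symm (e x)) = f x
      rw [e.symm_apply_apply]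
    · rintro h ⟨h1, -⟩
      refine MonoidHom.ext fun x => ?_
      obtain ⟨y, rfl⟩ := e.surjective x
      change h (e y) = f (e.symm (e y))
      rw [e.symm_apply_apply]
      exact DFunLike.congr_fun h1 y

/-- the free product with a trivial group -/
def sqL {A B P : Type} [Group A] [Group B] [Group P] (a : Emb A P) (b : Emb B P)
    (hb : Function.Surjective b.f) (hA : Subsingleton A) : Sq PUnit A B P where
  i := oneE A
  j := oneE B
  a := a
  b := b
  comm := hom_sub inferInstance _ _
  univ := fun T _ f g _ => by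
    let e : B ≃* P := MulEquiv.ofBijective b.f ⟨b.inj, hb⟩
    refine ⟨g.comp e.symm.toMonoidHom, ⟨hom_sub hA _ _, MonoidHom.ext fun x => ?_⟩, ?_⟩
    · change g (e.symm (e x)) = g x
      rw [e.symm_apply_apply]
    · rintro h ⟨-, h1⟩
      refine MonoidHom.ext fun x => ?_
      obtain ⟨y, rfl⟩ := e.surjective x
      change h (e y) = g (e.symm (e y))
      rw [e.symm_apply_apply]
      exact DFunLike.congr_fun h1 y

section fam

variable {W : Type} [LinearOrder W] {P : W → Type} [∀ w, Group (P w)]

/-- a factor -/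
def fac (P : W → Type) [∀ w, Group (P w)] (w : W) : Subgroup (CoprodI P) :=
  (CoprodI.of : P w →* CoprodI P).range

theorem fac_le {S : Set W} {w : W} (hw : w ∈ S) : fac P w ≤ fs P S := by
  rintro _ ⟨p, rfl⟩
  exact of_mem_fs hw p

theorem fac_fs {S : Set W} {w : W} (hw : w ∉ S) {x : CoprodI P} (h : x ∈ fac P w)
    (h' : x ∈ fs P S) : x = 1 := by
  obtain ⟨p, rfl⟩ := h
  have h1 : ∀ y ∈ fs P S, rt P w y = 1 := by
    intro y hy
    induction hy using Subgroup.closure_induction with
    | mem y hy =>
      obtain ⟨u, hu, q, rfl⟩ := hy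
      exact DFunLike.congr_fun (rt_ne (Q := P) (w := w) (u := u) (fun h => hw (h ▸ hu))) q
    | one => exact map_one _
    | mul a b _ _ ha hb => rw [map_mul, ha, hb, one_mul]
    | inv a _ ha => rw [map_inv, ha, inv_one]
  have h2 : rt P w (CoprodI.of p) = p := DFunLike.congr_fun (rt_of (Q := P) w) p
  have h3 : p = 1 := by rw [← h2, h1 _ h']
  rw [h3, map_one]

theorem fac_fac {v w : W} (h : w ≠ v) {x : CoprodI P} (h1 : x ∈ fac P w) (h2 : x ∈ fac P v) :
    x = 1 := by
  refine fac_fs (S := {v}) h h1 ?_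
  obtain ⟨p, rfl⟩ := h2
  exact of_mem_fs (Set.mem_singleton v) p

theorem fs_fin (x : CoprodI P) : ∃ S : Finset W, x ∈ fs P (S : Set W) := by
  classical
  induction x using CoprodI.induction_on with
  | one => exact ⟨∅, one_mem _⟩
  | of w p => exact ⟨{w}, of_mem_fs (by simp) p⟩
  | mul a b ha hb =>
    obtain ⟨S, hS⟩ := ha
    obtain ⟨T, hT⟩ := hb
    refine ⟨S ∪ T, mul_mem (fs_mono (by simp) hS) (fs_mono (by simp) hT)⟩

/-- the isomorphism of a factor -/
noncomputable def facIso (P : W → Type) [∀ w, Group (P w)] (w : W) : P w ≃* fac P w :=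
  MonoidHom.ofInjective (CoprodI.of_injective w)

/-- the main square -/
noncomputable def bigSq {S : Set W} {v : W} (hv : v ∉ S) :
    Sq PUnit (fs P S) (fac P v) (fs P (insert v S)) where
  i := oneE _
  j := oneE _
  a := leE (fs_mono (Set.subset_insert v S))
  b := leE (fac_le (Set.mem_insert v S))
  comm := hom_sub inferInstance _ _
  univ := fun T _ f g _ => by
    obtain ⟨F, h1, h2⟩ := fs_univ_prop hv f (g.comp (facIso P v).toMonoidHom)
    refine ⟨F, ⟨h1, MonoidHom.ext fun x => ?_⟩, ?_⟩
    · obtain ⟨p, rfl⟩ := (facIso P v).surjective x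
      exact DFunLike.congr_fun h2 p
    · rintro F' ⟨h3, h4⟩
      refine fs_uniq F' F (h3.trans h1.symm) ?_
      rw [h2]
      exact MonoidHom.ext fun p => DFunLike.congr_fun h4 (facIso P v p)

variable {H E : ℤ → MFun} {α : ∀ n, MNat (H n) (E n)}

theorem sub_fs {S : Set W} {w : W} (hw : w ∉ S) : Subsingleton (fac P w ⊓ fs P S : Subgroup _) :=
  ⟨fun x y => Subtype.ext ((fac_fs hw x.2.1 x.2.2).trans (fac_fs hw y.2.1 y.2.2).symm)⟩

theorem sub_fac {v w : W} (h : w ≠ v) : Subsingleton (fac P w ⊓ fac P v : Subgroup _) :=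
  ⟨fun x y => Subtype.ext ((fac_fac h x.2.1 x.2.2).trans (fac_fac h y.2.1 y.2.2).symm)⟩

/-- a trivial group -/
def isoOne (A : Type) [Group A] (h : Subsingleton A) : A ≃* PUnit where
  toFun := fun _ => PUnit.unit
  invFun := fun _ => 1
  left_inv := fun _ => Subsingleton.elim _ _
  right_inv := fun _ => rfl
  map_mul' := fun _ _ => rfl

/-- the factor in a larger subgroup -/
def isoInf {G : Type} [Group G] {L M : Subgroup G} (h : L ≤ M) : (L ⊓ M : Subgroup G) ≃* L where
  toFun := fun x => ⟨x, x.2.1⟩
  invFun := fun x => ⟨x, x.2, h x.2⟩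
  left_inv := fun _ => rfl
  right_inv := fun _ => rfl
  map_mul' := fun _ _ => rfl

/-- injectivity for the intersections -/
theorem inj_inf {H E : MFun} {β : MNat H E} (h1 : BijM β PUnit) (hP : ∀ w, InjM β (P w))
    (S : Set W) (w : W) : InjM β (fac P w ⊓ fs P S : Subgroup _) := by
  by_cases hw : w ∈ S
  · exact injM_iso β (isoInf (fac_le hw)) (injM_iso β (facIso P w).symm (hP w))
  · exact injM_iso β (isoOne _ (sub_fs hw)) h1.1

/-- finite free products -/
theorem relM_fs (hA : ∀ n, AmalSeq (α (n + 1)) (α n)) (h1 : ∀ n, BijM (α n) PUnit)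
    (hP : ∀ n w, InjM (α n) (P w)) (S : Finset W) :
    ∀ n, RelM (α n) (fun w => incE (fac P w) (fs P (S : Set W))) := by
  classical
  induction S using Finset.induction_on with
  | empty =>
    intro n
    have h2 : Subsingleton (fs P ((∅ : Finset W) : Set W)) := by
      refine ⟨fun x y => Subtype.ext ?_⟩
      have h3 : ∀ x ∈ fs P ((∅ : Finset W) : Set W), x = 1 := by
        intro x hx
        induction hx using Subgroup.closure_induction with
        | mem x hx =>
          obtain ⟨u, hu, -⟩ := hx
          exact absurd hu (by simp)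
        | one => rfl
        | mul a b _ _ ha hb => rw [ha, hb, one_mul]
        | inv a _ ha => rw [ha, inv_one]
      rw [h3 x x.2, h3 y y.2]
    exact relM_bij (bijM_iso _ (isoOne _ h2) (h1 n))
      (fun w => bijM_iso _ (isoOne _ (sub_fs (by simp))) (h1 n))
  | insert v S hv ih =>
    intro n
    obtain ⟨m, rfl⟩ : ∃ m, n = m + 1 := ⟨n - 1, by ring⟩
    obtain ⟨m', rfl⟩ : ∃ m', m = m' + 1 := ⟨m - 1, by ring⟩
    rw [Finset.coe_insert]
    have hv' : v ∉ (S : Set W) := by simpa using hv
    -- the small squares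
    have sq : ∀ w, ∃ S' : Sq PUnit (fac P w ⊓ fs P (S : Set W) : Subgroup _)
        (fac P w ⊓ fac P v : Subgroup _) (fac P w ⊓ fs P (insert v (S : Set W)) : Subgroup _),
        S'.a = leE (inf_le_inf_left (fac P w) (fs_mono (Set.subset_insert v _))) ∧
          S'.b = leE (inf_le_inf_left (fac P w) (fac_le (Set.mem_insert v _))) := by
      intro w
      by_cases hwv : w = v
      · subst hwv
        refine ⟨sqL _ _ ?_ (sub_fs hv'), rfl, rfl⟩
        rintro ⟨x, hx⟩
        exact ⟨⟨x, hx.1, hx.1⟩, rfl⟩
      · by_cases hwS : w ∈ S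
        · refine ⟨sqR _ _ ?_ (sub_fac hwv), rfl, rfl⟩
          rintro ⟨x, hx⟩
          exact ⟨⟨x, hx.1, fac_le (Finset.mem_coe.2 hwS) hx.1⟩, rfl⟩
        · refine ⟨sqR _ _ ?_ (sub_fac hwv), rfl, rfl⟩
          rintro ⟨x, hx⟩
          have h2 : x = 1 := fac_fs (S := insert v (S : Set W)) (by
            rintro (h | h)
            · exact hwv h
            · exact hwS h) hx.1 hx.2
          exact ⟨1, Subtype.ext h2.symm⟩
    choose S' hSa hSb using sq
    let F : ∀ w, SqHom (S' w) (bigSq (P := P) hv') := fun w =>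
      { k := ⟨MonoidHom.id _, Function.injective_id⟩
        p := incE (fac P w) (fs P (S : Set W))
        q := incE (fac P w) (fac P v)
        r := incE (fac P w) (fs P (insert v (S : Set W)))
        ci := hom_sub inferInstance _ _
        cj := hom_sub inferInstance _ _
        ca := by
          rw [hSa]
          exact MonoidHom.ext fun x => rfl
        cb := by
          rw [hSb]
          exact MonoidHom.ext fun x => rfl }
    have hv1 : ∀ n, RelM (α n) (fun w => incE (fac P w) (fac P v)) := fun n =>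
      relM_one v (isoInf (le_refl (fac P v))) (fun p => rfl)
        (fun w hw => bijM_iso _ (isoOne _ (sub_fac hw)) (h1 n))
    have hk : ∀ n, RelM (α n) (fun w => (F w).k) := fun n => relM_bij (h1 n) (fun w => h1 n)
    exact amal_step (hA _) (hA m').1 F (hk _) (hk _) (ih _) (ih _) (hv1 _) (hv1 _)
      (fun w => inj_inf (h1 _) (hP _) _ w)
      (fun w => by
        by_cases hw : w = v
        · subst hw
          exact injM_iso _ (isoInf (le_refl (fac P w))) (injM_iso _ (facIso P w).symm (hP _ w))
        · exact injM_iso _ (isoOne _ (sub_fac hw)) (h1 _).1)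
      (fun w => inj_inf (h1 _) (hP _) _ w)

end fam

end Pool.Agent.Q105.MN
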