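import Pool.Agent.Q105.MN.CokDef

/-!
# Surjectivity and gluing: locally inner HNN extensions, infinite cyclic quotients, towers, germs
-/

set_option autoImplicit false
set_option linter.unusedSectionVars false

namespace Pool.Agent.Q105.MG

open Pool.Agent.Q262.NV Pool.Agent.Q143.MV Topology

variable {R' R E' E : MFun} {Θ' : MNat R' E'} {Θ : MNat R E} {S : Submonoid ℕ}

theorem cok_equiv {G G' : Type} [Group G] [Group G'] (e : G ≃* G') (h : CokS S Θ G') :
    CokS S Θ G := by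
  intro c
  obtain ⟨s, hs, r, hr⟩ := h (E.map e.toMonoidHom (eqv_inj e) c)
  refine ⟨s, hs, R.map e.symm.toMonoidHom (eqv_inj e.symm) r, ?_⟩
  rw [Θ.nat, hr, E.map_nsmul, E.map_comp' (k := MonoidHom.id G)
    (MonoidHom.ext fun g => (e.symm_apply_apply g).symm) Function.injective_id, E.map_id]

/-- the conclusion from the boundary -/
theorem cok_end {G : Type} [Group G] {P : PIso G} {ε : E'.obj P.Ext → E.obj P.A} (hadd : IsAdd ε)
    (hex : ∀ z, ε z = 0 → ∃ y, z = toHnn E' P y) (hG : CokS S Θ' G) {z : E'.obj P.Ext} {s : ℕ}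
    (hs : s ∈ S) {w : R'.obj P.Ext} (hw : ε (Θ'.app P.Ext w) = s • ε z) :
    ∃ s ∈ S, ∃ r : R'.obj P.Ext, Θ'.app P.Ext r = s • z := by
  let e : E'.obj P.Ext →+ E.obj P.A := AddMonoidHom.mk' ε hadd
  have h1 : e (s • z - Θ'.app P.Ext w) = 0 := by
    rw [map_sub, map_nsmul]
    change s • ε z - ε (Θ'.app P.Ext w) = 0
    rw [hw, sub_self]
  obtain ⟨y, hy⟩ := hex _ h1
  obtain ⟨s', hs', u, hu⟩ := hG y
  refine ⟨s' * s, S.mul_mem hs' hs, s' • w + toHnn R' P u, ?_⟩
  have h2 : Θ'.app P.Ext (toHnn R' P u) = s' • toHnn E' P y := by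
    unfold toHnn
    rw [Θ'.nat, hu, E'.map_nsmul]
  have h3 : s • z = toHnn E' P y + Θ'.app P.Ext w := by rw [← hy, sub_add_cancel]
  rw [Θ'.app_add, Θ'.app_nsmul, h2, mul_smul, h3, smul_add, add_comm]

/-- **HNN extensions along locally inner isomorphisms.** -/
theorem cok_loc (hg : Gluing Θ' Θ) (hc : ContM R) (hi : InnerTrivM R) {G : Type} [Group G]
    {P : PIso G} (h : P.LocallyInner) (hG : CokS S Θ' G) (hA : CokS S Θ P.A) :
    CokS S Θ' P.Ext := by
  obtain ⟨ε, hadd, hex, -, hglue⟩ := hg G P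
  intro z
  obtain ⟨s, hs, r, hr⟩ := hA (ε z)
  obtain ⟨w, hw⟩ := hglue r (map_locM hc hi (jh_injective P.φ) P.A.subtype_injective h r).symm
  exact cok_end hadd hex hG hs (hw.trans hr)

/-- **HNN extensions of groups with torsion kernels.** -/
theorem cok_hnn (hg : Gluing Θ' Θ) {G : Type} [Group G] {P : PIso G} (hk : KerTor S Θ G)
    (hG : CokS S Θ' G) (hA : CokS S Θ P.A) : CokS S Θ' P.Ext := by
  obtain ⟨ε, hadd, hex, hinc, hglue⟩ := hg G P
  intro z
  obtain ⟨s, hs, r, hr⟩ := hA (ε z)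
  have h1 : Θ.app G (incA R P r - incB R P r) = 0 := by
    have e1 : Θ.app G (incA R P r) = incA E P (Θ.app P.A r) := Θ.nat _ _ r
    have e2 : Θ.app G (incB R P r) = incB E P (Θ.app P.A r) := Θ.nat _ _ r
    have e3 : incA E P (s • ε z) = s • incA E P (ε z) := E.map_nsmul _ _ _ _
    have e4 : incB E P (s • ε z) = s • incB E P (ε z) := E.map_nsmul _ _ _ _
    have e5 : Θ.app G (incA R P r - incB R P r) =
        Θ.app G (incA R P r) - Θ.app G (incB R P r) := (Θ.hom G).map_sub _ _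
    rw [e5, e1, e2, hr, e3, e4, hinc, sub_self]
  obtain ⟨s', hs', h2⟩ := hk _ h1
  have h3 : incA R P (s' • r) = incB R P (s' • r) := by
    have e1 : incA R P (s' • r) = s' • incA R P r := R.map_nsmul _ _ _ _
    have e2 : incB R P (s' • r) = s' • incB R P r := R.map_nsmul _ _ _ _
    rw [e1, e2, ← sub_eq_zero, ← smul_sub]
    exact h2
  obtain ⟨w, hw⟩ := hglue (s' • r) h3
  refine cok_end hadd hex hG (S.mul_mem hs' hs) (w := w) ?_
  rw [hw, Θ.app_nsmul, hr, smul_smul]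

section cyc

variable {Γ : Type} [Group Γ] (π : Γ →* Multiplicative ℤ)

/-- **Infinite cyclic quotients.** -/
theorem cok_cyc (hg : Gluing Θ' Θ) (hc : ContM R) (hi : InnerTrivM R)
    (hπ : Function.Surjective π)
    (h : ∀ A : Finset Γ, (∀ a ∈ A, π a = 1) → ∃ (m : ℕ) (γ : Γ), m ∈ S ∧
      π γ = Multiplicative.ofAdd (m : ℤ) ∧ ∀ a ∈ A, γ * a = a * γ)
    (hN' : CokS S Θ' π.ker) (hN : CokS S Θ π.ker) : CokS S Θ' Γ := by
  classical
  obtain ⟨t, ht⟩ := hπ (Multiplicative.ofAdd 1)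
  let P : PIso π.ker := ⟨⊤, ⊤, cj π t⟩
  have key : CokS S Θ' P.Ext := by
    obtain ⟨ε, hadd, hex, hinc, hglue⟩ := hg π.ker P
    intro z
    obtain ⟨c, hc'⟩ : ∃ c, c = incA E P (ε z) := ⟨_, rfl⟩
    have hct : cn E t c = c := by
      have h1 : incB E P (ε z) = cn E t (incA E P (ε z)) := jh_cj π t E (ε z)
      rw [hc', ← h1, hinc]
    have hctj : ∀ j : ℕ, cn E (t ^ j) c = c := by
      intro j
      induction j with
      | zero => rw [pow_zero, cn_one]
      | succ j ih => rw [pow_succ, cn_mul, hct, ih]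
    obtain ⟨s, hs, r, hr⟩ := hN c
    obtain ⟨A, hA, hA'⟩ := cn_eq R hc hi r
    obtain ⟨m, γ, hm, hγ, hcomm⟩ := h A hA
    have hper : cn R (t ^ m) r = r := by
      apply hA'
      refine ⟨(t ^ m)⁻¹ * γ, ?_, fun a ha => ?_⟩
      · rw [MonoidHom.mem_ker, map_mul, map_inv, pow_t ht, hγ, inv_mul_cancel]
      · rw [mul_inv_cancel_left]
        exact hcomm a ha
    obtain ⟨r', hr'⟩ : ∃ r', r' = ∑ j ∈ Finset.range m, cn R (t ^ j) r := ⟨_, rfl⟩
    have h1 : cn R t r' = r' := by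
      have h2 : cn R t r' = ∑ j ∈ Finset.range m, cn R (t ^ (j + 1)) r := by
        rw [hr']
        unfold cn
        rw [R.map_sum]
        refine Finset.sum_congr rfl (fun j _ => ?_)
        have h3 := (cn_mul R t (t ^ j) r).symm
        rw [← pow_succ'] at h3
        exact h3
      have h4 := Finset.sum_range_succ (fun j => cn R (t ^ j) r) m
      have h5 := Finset.sum_range_succ' (fun j => cn R (t ^ j) r) m
      rw [h4, pow_zero, cn_one, hper] at h5
      rw [h2, hr']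
      exact (add_right_cancel h5).symm
    have h2 : Θ.app π.ker r' = (m * s) • c := by
      rw [hr', Θ.app_sum]
      have h3 : ∀ j ∈ Finset.range m, Θ.app π.ker (cn R (t ^ j) r) = s • c := by
        intro j _
        have h4 : Θ.app π.ker (cn R (t ^ j) r) = cn E (t ^ j) (Θ.app π.ker r) := by
          unfold cn
          rw [Θ.nat]
        rw [h4, hr]
        have h5 : cn E (t ^ j) (s • c) = s • cn E (t ^ j) c := by
          unfold cn
          rw [E.map_nsmul]
        rw [h5, hctj]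
      rw [Finset.sum_congr rfl h3, Finset.sum_const, Finset.card_range, smul_smul]
    obtain ⟨r1, hr1⟩ : ∃ r1 : R.obj P.A,
        r1 = R.map (Subgroup.topEquiv (G := π.ker)).symm.toMonoidHom (eqv_inj _) r' := ⟨_, rfl⟩
    have h3 : incA R P r1 = r' := by
      rw [hr1]
      unfold incA
      rw [R.map_comp' (k := MonoidHom.id π.ker) rfl Function.injective_id, R.map_id]
    have h4 : incB R P r1 = r' := by
      have h5 : incB R P r1 = cn R t (incA R P r1) := jh_cj π t R r1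
      rw [h5, h3, h1]
    obtain ⟨w, hw⟩ := hglue r1 (h3.trans h4.symm)
    have hinj : ∀ x y : E.obj P.A, incA E P x = incA E P y → x = y := by
      intro x y hxy
      have h6 : ∀ x : E.obj P.A, E.map (Subgroup.topEquiv (G := π.ker)).symm.toMonoidHom
          (eqv_inj _) (incA E P x) = x := by
        intro x
        unfold incA
        rw [E.map_comp' (k := MonoidHom.id P.A) rfl Function.injective_id, E.map_id]
      rw [← h6 x, ← h6 y, hxy]
    have h5 : ε (Θ'.app P.Ext w) = (m * s) • ε z := by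
      rw [hw]
      apply hinj
      have h6 : incA E P (Θ.app P.A r1) = Θ.app π.ker (incA R P r1) := by
        unfold incA
        rw [Θ.nat]
      have h7 : incA E P ((m * s) • ε z) = (m * s) • incA E P (ε z) := by
        unfold incA
        rw [E.map_nsmul]
      rw [h6, h7, h3, h2, hc']
    exact cok_end hadd hex hN' (S.mul_mem hm hs) h5
  exact cok_equiv (psiE ht).symm key

end cyc

/-- **Directed unions.** -/
theorem cok_union (hc : ContM E) (G : Type) [Group G] (I : Type)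
    [Preorder I] [Nonempty I] (hd : ∀ i j : I, ∃ k, i ≤ k ∧ j ≤ k) (U : I → Subgroup G)
    (hU' : Monotone U) (hU : ∀ g, ∃ i, g ∈ U i) (h : ∀ i, CokS S Θ (U i)) : CokS S Θ G := by
  intro x
  obtain ⟨i, y, rfl⟩ := hc G I hd U hU' hU x
  obtain ⟨s, hs, r, hr⟩ := h i y
  exact ⟨s, hs, R.map (U i).subtype (Subgroup.subtype_injective _) r, by
    rw [Θ.nat, hr, E.map_nsmul]⟩

section tower

variable {R E : ℤ → MFun} {Θ : ∀ n, MNat (R n) (E n)}
  (hg : ∀ n, Gluing (Θ (n + 1)) (Θ n)) (hcR : ∀ n, ContM (R n)) (hcE : ∀ n, ContM (E n))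
  (hiR : ∀ n, InnerTrivM (R n)) {Γ : Type} [Group Γ]

include hg hcR hcE hiR

/-- **Ascending series with infinite cyclic factors.** -/
theorem cok_tower {N : Subgroup Γ}
    (hC : ∀ (γ : Γ) (F : Finset Γ), ∃ (m : ℕ) (ν : Γ), m ∈ S ∧ ν ∈ N ∧
      ∀ a ∈ F, γ ^ m * ν * a = a * (γ ^ m * ν))
    {M : Subgroup Γ} (hM : Tower N M) (hN : ∀ n, CokS S (Θ n) N) :
    ∀ n, CokS S (Θ n) M := by
  classical
  induction hM with
  | base => exact hN
  | @step M M' π hT hπ hle hker ih =>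
    intro n
    obtain ⟨n, rfl⟩ : ∃ k, n = k + 1 := ⟨n - 1, by ring⟩
    have hke : π.ker = M.subgroupOf M' := by
      ext x
      rw [MonoidHom.mem_ker, Subgroup.mem_subgroupOf]
      exact hker x
    have hI : ∀ n, CokS S (Θ n) π.ker := fun n =>
      cok_equiv ((MulEquiv.subgroupCongr hke).trans (Subgroup.subgroupOfEquivOfLe hle)) (ih n)
    obtain ⟨t, ht⟩ := hπ (Multiplicative.ofAdd 1)
    refine cok_cyc π (hg n) (hcR _) (hiR _) hπ (fun F hF => ?_) (hI _) (hI _)
    obtain ⟨m, ν, hm, hν, hc⟩ := hC t (Finset.image (fun a : M' => (a : Γ)) F)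
    have hν' : ν ∈ M := hT.le hν
    refine ⟨m, t ^ m * ⟨ν, hle hν'⟩, hm, ?_, fun a ha => ?_⟩
    · rw [map_mul, pow_t ht, (hker ⟨ν, hle hν'⟩).2 hν', mul_one]
    · apply Subtype.ext
      exact hc a (Finset.mem_image.2 ⟨a, ha, rfl⟩)
  | union I U hd hU hT ih =>
    intro n
    have hle : ∀ i, U i ≤ ⨆ i, U i := fun i => le_iSup U i
    refine cok_union (hcE n) _ I hd (fun i => (U i).subgroupOf (⨆ i, U i)) ?_ ?_
      (fun i => cok_equiv (Subgroup.subgroupOfEquivOfLe (hle i)) (ih i n))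
    · intro i j hij x hx
      exact hU hij hx
    · rintro ⟨g, hg⟩
      have hdir : Directed (· ≤ ·) U := fun i j => by
        obtain ⟨k, h1, h2⟩ := hd i j
        exact ⟨k, hU h1, hU h2⟩
      obtain ⟨i, hi⟩ := (Subgroup.mem_iSup_of_directed hdir).1 hg
      exact ⟨i, hi⟩

/-- **Germs.** -/
theorem cok_germ {X : Type} [TopologicalSpace X] [MulAction Γ X] [FaithfulSMul Γ X] (p : X)
    (π : Γ →* Multiplicative ℤ) (hπ : Function.Surjective π)
    (hker : ∀ g, π g = 1 ↔ ∃ U ∈ 𝓝 p, ∀ x ∈ U, g • x = x)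
    (hsm : ∀ U ∈ 𝓝 p, ∃ (m : ℕ) (γ : Γ), m ∈ S ∧ π γ = Multiplicative.ofAdd (m : ℤ) ∧
      ∀ x, x ∉ U → γ • x = x)
    (hN : ∀ n, ∀ U ∈ 𝓝 p, CokS S (Θ n) (fixingSubgroup Γ U)) (n : ℤ) :
    CokS S (Θ n) Γ := by
  classical
  have hle : ∀ U ∈ 𝓝 p, fixingSubgroup Γ U ≤ π.ker := by
    intro U hU g hg
    rw [MonoidHom.mem_ker]
    exact (hker g).2 ⟨U, hU, (mem_fixingSubgroup_iff Γ).1 hg⟩
  have hI : ∀ n, CokS S (Θ n) π.ker := by
    intro n
    let I : Type := {U : Set X // U ∈ 𝓝 p}ᵒᵈ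
    have : Nonempty I := ⟨OrderDual.toDual ⟨Set.univ, Filter.univ_mem⟩⟩
    refine cok_union (hcE n) π.ker I ?_
      (fun U => (fixingSubgroup Γ (OrderDual.ofDual U).1).subgroupOf π.ker) ?_ ?_ ?_
    · intro U V
      exact ⟨OrderDual.toDual ⟨(OrderDual.ofDual U).1 ∩ (OrderDual.ofDual V).1,
        Filter.inter_mem (OrderDual.ofDual U).2 (OrderDual.ofDual V).2⟩,
        Set.inter_subset_left, Set.inter_subset_right⟩
    · intro U V hUV g hg
      rw [Subgroup.mem_subgroupOf, mem_fixingSubgroup_iff] at hg ⊢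
      exact fun y hy => hg y (hUV hy)
    · rintro ⟨g, hg⟩
      obtain ⟨U, hU, h1⟩ := (hker g).1 hg
      refine ⟨OrderDual.toDual ⟨U, hU⟩, ?_⟩
      rw [Subgroup.mem_subgroupOf, mem_fixingSubgroup_iff]
      exact h1
    · intro U
      exact cok_equiv (Subgroup.subgroupOfEquivOfLe (hle _ (OrderDual.ofDual U).2))
        (hN n _ (OrderDual.ofDual U).2)
  obtain ⟨n, rfl⟩ : ∃ k, n = k + 1 := ⟨n - 1, by ring⟩
  refine cok_cyc π (hg n) (hcR _) (hiR _) hπ (fun A hA => ?_) (hI _) (hI _)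
  have hW : ∃ W ∈ 𝓝 p, ∀ a ∈ A, ∀ x ∈ W, a • x = x := by
    induction A using Finset.induction_on with
    | empty => exact ⟨Set.univ, Filter.univ_mem, by simp⟩
    | insert a A _ ih =>
      obtain ⟨W, hW, h1⟩ := ih fun b hb => hA b (Finset.mem_insert_of_mem hb)
      obtain ⟨U, hU, h2⟩ := (hker a).1 (hA a (Finset.mem_insert_self a A))
      refine ⟨W ∩ U, Filter.inter_mem hW hU, fun b hb x hx => ?_⟩
      rcases Finset.mem_insert.1 hb with rfl | hb
      · exact h2 x hx.2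
      · exact h1 b hb x hx.1
  obtain ⟨W, hW, h1⟩ := hW
  obtain ⟨m, γ, hm, hγ, h2⟩ := hsm W hW
  exact ⟨m, γ, hm, hγ, fun a ha => commute_of_support W γ a h2 (h1 a ha)⟩

end tower

end Pool.Agent.Q105.MG
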