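import Pool.Agent.Q105.MN.Pull

/-!
# Relatively bijective families for extensions with quotient in a class of groups
-/

set_option autoImplicit false
set_option linter.unusedSectionVars false

namespace Pool.Agent.Q105.MN

open Pool.Agent.Q262.NV Pool.Agent.Q105.NV

section

variable {H E : ℤ → MFun} {α : ∀ n, MNat (H n) (E n)} {Γ : Type} [Group Γ]

/-- unions inside of a group -/
theorem union_sub (h : SetupM H E α) {V I : Type} [Preorder I] [Nonempty I]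
    {M : I → Subgroup Γ} {L : V → Subgroup Γ} {M' : Subgroup Γ}
    (hd : ∀ i j : I, ∃ k, i ≤ k ∧ j ≤ k) (hM : Monotone M) (hle : ∀ i, M i ≤ M')
    (hU : ∀ g ∈ M', ∃ i, g ∈ M i) (n : ℤ) (hi : ∀ i, RelM (α n) (fun v => incE (L v) (M i))) :
    RelM (α n) (fun v => incE (L v) M') := by
  have h1 : RelM (α n) (fun v => subE ((L v).subgroupOf M')) := by
    refine union_step (S := fun i => (M i).subgroupOf M') (h n).2.2.1.1 (h n).2.2.1.2
      (h n).2.2.2.1 hd (fun i j hij x hx => hM hij hx) (fun g => ?_) (fun i => ?_)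
    · obtain ⟨i, hi⟩ := hU g g.2
      exact ⟨i, hi⟩
    · refine (hi i).congr (N' := (M i).subgroupOf M') ⟨⟨fun x => ⟨⟨x, hle i x.2⟩, x.2⟩,
        fun x => ⟨((x : M') : Γ), x.2⟩, fun x => rfl, fun x => rfl⟩, fun x y => rfl⟩
        (fun v => ⟨⟨fun x => ⟨⟨x, hle i x.2.2⟩, x.2.1, x.2.2⟩,
        fun x => ⟨((x : M') : Γ), x.2.1, x.2.2⟩, fun x => rfl, fun x => rfl⟩, fun x y => rfl⟩)
        (fun v p => rfl)
  refine h1.congr (MulEquiv.refl _) (fun v => ⟨⟨fun x => ⟨((x : M') : Γ), x.2, (x : M').2⟩,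
    fun x => ⟨⟨x, x.2.2⟩, x.2.1⟩, fun x => rfl, fun x => rfl⟩, fun x y => rfl⟩)
    (fun v p => rfl)

/-- the morphism of amalgamated products -/
def IsAmal.hom {L K A B P : Subgroup Γ} (hs : IsAmal (L ⊓ K) (L ⊓ A) (L ⊓ B) (L ⊓ P))
    (hb : IsAmal K A B P) : SqHom hs.sq hb.sq where
  k := incE L K
  p := incE L A
  q := incE L B
  r := incE L P
  ci := MonoidHom.ext fun x => rfl
  cj := MonoidHom.ext fun x => rfl
  ca := MonoidHom.ext fun x => rfl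
  cb := MonoidHom.ext fun x => rfl

theorem amal_sub (h : SetupM H E α) {V : Type} {L : V → Subgroup Γ} {K A B P : Subgroup Γ}
    (hb : IsAmal K A B P) (hs : ∀ v, IsAmal (L v ⊓ K) (L v ⊓ A) (L v ⊓ B) (L v ⊓ P))
    (hI : ∀ n v (D : Subgroup Γ), L v ⊓ K ≤ D → D ≤ L v → InjM (α n) D) (hK : RelOn α L K)
    (hA : RelOn α L A) (hB : RelOn α L B) : RelOn α L P := by
  intro n
  obtain ⟨m, rfl⟩ : ∃ m, n = m + 1 := ⟨n - 1, by ring⟩
  obtain ⟨m', rfl⟩ : ∃ m', m = m' + 1 := ⟨m - 1, by ring⟩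
  exact amal_step (h _).2.1 (h m').2.1.1 (fun v => (hs v).hom hb) (hK _) (hK _) (hA _) (hA _)
    (hB _) (hB _) (fun v => hI _ v _ (hs v).1.1 inf_le_left)
    (fun v => hI _ v _ (hs v).1.2.1 inf_le_left)
    (fun v => hI _ v _ ((hs v).1.1.trans (hs v).1.2.2.1) inf_le_left)

theorem free_sub (h : SetupM H E α) {V : Type} {L : V → Subgroup Γ} {M M' : Subgroup Γ}
    (hM : FreeStep M M') (hL : ∀ v, ∀ γ ∈ M', ∃ l ∈ L v, ∃ m ∈ M, γ = l * m)
    (hI : ∀ n v (D : Subgroup Γ), L v ⊓ M ≤ D → D ≤ L v → InjM (α n) D) (h0 : RelOn α L M) :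
    RelOn α L M' := by
  intro n
  obtain ⟨m, rfl⟩ : ∃ m, n = m + 1 := ⟨n - 1, by ring⟩
  obtain ⟨m', rfl⟩ : ∃ m', m = m' + 1 := ⟨m - 1, by ring⟩
  exact step_subM (h _).1 (h m').1.1 (h m').1.2.1 (h _).2.2.2.2.1.2 (h _).2.2.2.2.1.1
    (h _).2.2.2.2.1.2 hM hL (h0 _) (h0 _) (fun v => hI _ v _ le_rfl inf_le_left)
    (fun v => hI _ v _ (inf_le_inf_left _ hM.1) inf_le_left)

theorem union_iSup (h : SetupM H E α) {V I : Type} [Preorder I] [Nonempty I]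
    {M : I → Subgroup Γ} {L : V → Subgroup Γ}
    (hd : ∀ i j : I, ∃ k, i ≤ k ∧ j ≤ k) (hM : Monotone M) (hi : ∀ i, RelOn α L (M i)) :
    RelOn α L (⨆ i, M i) := by
  intro n
  refine union_sub h hd hM (fun i => le_iSup M i) (fun g hg => ?_) n (fun i => hi i n)
  have hdir : Directed (· ≤ ·) M := fun i j => by
    obtain ⟨k, hik, hjk⟩ := hd i j
    exact ⟨k, hM hik, hM hjk⟩
  exact (Subgroup.mem_iSup_of_directed hdir).1 hg

theorem one_sub {V : Type} {L : V → Subgroup Γ} {M : Subgroup Γ} (w : V) (hM : M ≤ L w)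
    (hI : ∀ n v, v ≠ w → BijM (α n) (L v ⊓ M : Subgroup Γ)) : RelOn α L M := by
  classical
  intro n
  exact relM_one w ⟨⟨fun x => ⟨x, x.2.2⟩, fun x => ⟨x, hM x.2, x.2⟩, fun x => rfl, fun x => rfl⟩,
    fun x y => rfl⟩ (fun p => rfl) (fun v hv => hI n v hv)

variable {Q V : Type} [Group Q] {π : Γ →* Q} {L : V → Subgroup Γ}

theorem free_pull (hπ : Function.Surjective π) {M M' : Subgroup Q} (h : FreeStep M M') :
    FreeStep (M.comap π) (M'.comap π) := by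
  obtain ⟨hle, X, ψ, hψ, hk⟩ := h
  refine ⟨fun x hx => hle hx, X, ψ.comp ((π.comp (M'.comap π).subtype).codRestrict M'
    (fun x => x.2)), ?_, ?_⟩
  · intro y
    obtain ⟨⟨q, hq⟩, rfl⟩ := hψ y
    obtain ⟨x, rfl⟩ := hπ q
    exact ⟨⟨x, hq⟩, rfl⟩
  · intro x
    exact hk ⟨π x, x.2⟩

theorem hier_step (h : SetupM H E α) (hπ : Function.Surjective π)
    (hL : ∀ v q, ∃ l ∈ L v, π l = q)
    (hI : ∀ n v (S : Subgroup Q), InjM (α n) (L v ⊓ S.comap π : Subgroup Γ))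
    (h0 : ∀ n, RelM (α n) (fun v => incE (L v) π.ker)) {S : Subgroup Q} (hS : Hier S) :
    ∀ n, RelM (α n) (fun v => incE (L v) (S.comap π)) := by
  induction hS with
  | one => exact h0
  | free M M' hM hF ih =>
    intro n
    obtain ⟨m, rfl⟩ : ∃ m, n = m + 1 := ⟨n - 1, by ring⟩
    obtain ⟨m', rfl⟩ : ∃ m', m = m' + 1 := ⟨m - 1, by ring⟩
    refine step_subM (h _).1 (h m').1.1 (h m').1.2.1 (h _).2.2.2.2.1.2 (h _).2.2.2.2.1.1
      (h _).2.2.2.2.1.2 (free_pull hπ hF) (fun v γ hγ => ?_) (ih _) (ih _) (fun v => hI _ v M)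
      (fun v => hI _ v M')
    obtain ⟨l, hl, hl'⟩ := hL v (π γ)
    refine ⟨l, hl, l⁻¹ * γ, ?_, by group⟩
    change π (l⁻¹ * γ) ∈ M
    rw [map_mul, map_inv, hl', inv_mul_cancel]
    exact one_mem _
  | amal K A B P hK hA hB hP ihK ihA ihB =>
    intro n
    obtain ⟨m, rfl⟩ : ∃ m, n = m + 1 := ⟨n - 1, by ring⟩
    obtain ⟨m', rfl⟩ : ∃ m', m = m' + 1 := ⟨m - 1, by ring⟩
    have hbig : IsAmal (K.comap π) (A.comap π) (B.comap π) (P.comap π) :=
      hP.pull (fun x => ⟨fun hx => ⟨hP.1.2.2.1 (hP.1.1 hx), hx⟩, fun hx => hx.2⟩)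
        (fun x => ⟨fun hx => ⟨hP.1.2.2.1 hx, hx⟩, fun hx => hx.2⟩)
        (fun x => ⟨fun hx => ⟨hP.1.2.2.2 hx, hx⟩, fun hx => hx.2⟩) (fun x hx => hx)
        (fun q hq => by
          obtain ⟨x, rfl⟩ := hπ q
          exact ⟨x, hq, rfl⟩)
    have hsm : ∀ v, IsAmal (L v ⊓ K.comap π) (L v ⊓ A.comap π) (L v ⊓ B.comap π)
        (L v ⊓ P.comap π) := fun v =>
      hP.pull (fun x => ⟨fun hx => ⟨⟨hx.1, hP.1.2.2.1 (hP.1.1 hx.2)⟩, hx.2⟩,
          fun hx => ⟨hx.1.1, hx.2⟩⟩)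
        (fun x => ⟨fun hx => ⟨⟨hx.1, hP.1.2.2.1 hx.2⟩, hx.2⟩, fun hx => ⟨hx.1.1, hx.2⟩⟩)
        (fun x => ⟨fun hx => ⟨⟨hx.1, hP.1.2.2.2 hx.2⟩, hx.2⟩, fun hx => ⟨hx.1.1, hx.2⟩⟩)
        (fun x hx => hx.2)
        (fun q hq => by
          obtain ⟨l, hl, rfl⟩ := hL v q
          exact ⟨l, ⟨hl, hq⟩, rfl⟩)
    let F : ∀ v, SqHom (hsm v).sq hbig.sq := fun v =>
      { k := incE (L v) (K.comap π)
        p := incE (L v) (A.comap π)
        q := incE (L v) (B.comap π)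
        r := incE (L v) (P.comap π)
        ci := MonoidHom.ext fun x => rfl
        cj := MonoidHom.ext fun x => rfl
        ca := MonoidHom.ext fun x => rfl
        cb := MonoidHom.ext fun x => rfl }
    exact amal_step (h _).2.1 (h m').2.1.1 F (ihK _) (ihK _) (ihA _) (ihA _) (ihB _) (ihB _)
      (fun v => hI _ v A) (fun v => hI _ v B) (fun v => hI _ v P)
  | union I S hd hm _ ih =>
    intro n
    refine union_sub h (M := fun i => (S i).comap π) hd (fun i j hij x hx => hm hij hx)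
      (fun i x hx => le_iSup S i hx) (fun g hg => ?_) n (fun i => ih i n)
    have hdir : Directed (· ≤ ·) S := fun i j => by
      obtain ⟨k, hik, hjk⟩ := hd i j
      exact ⟨k, hm hik, hm hjk⟩
    exact (Subgroup.mem_iSup_of_directed hdir).1 hg

/-- the whole group -/
theorem hier_top (h : SetupM H E α) (hπ : Function.Surjective π)
    (hL : ∀ v q, ∃ l ∈ L v, π l = q)
    (hI : ∀ n v (S : Subgroup Q), InjM (α n) (L v ⊓ S.comap π : Subgroup Γ))
    (h0 : ∀ n, RelM (α n) (fun v => incE (L v) π.ker)) (hS : Hier (⊤ : Subgroup Q)) (n : ℤ) :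
    RelM (α n) (fun v => subE (L v)) := by
  refine (hier_step h hπ hL hI h0 hS n).congr (N' := Γ) ⟨⟨fun x => x, fun x => ⟨x, trivial⟩,
    fun x => rfl, fun x => rfl⟩, fun x y => rfl⟩
    (fun v => ⟨⟨fun x => ⟨x, x.2.1⟩, fun x => ⟨x, x.2, trivial⟩, fun x => rfl, fun x => rfl⟩,
      fun x y => rfl⟩) (fun v p => rfl)

end

end Pool.Agent.Q105.MN
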