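import Pool.Agent.Q105.MN.Hier

/-!
# Infinite free products
-/

set_option autoImplicit false
set_option linter.unusedSectionVars false

namespace Pool.Agent.Q105.MN

open Monoid Pool.Agent.Q262.NV Pool.Agent.Q105.NV Pool.Agent.Q105.FJ

section

variable {Γ : Type} [Group Γ] {U : Type} {P : U → Subgroup Γ} {N : Subgroup Γ}

theorem IsFreeProdM.iso (h : IsFreeProdM P N) :
    ∃ e : CoprodI (fun u => P u) ≃* N, ∀ u (p : P u), ((e (CoprodI.of p) : N) : Γ) = p := by
  obtain ⟨h1, h3⟩ := h
  let C : CoprodI (fun u => P u) →* N := CoprodI.lift (fun v => Subgroup.inclusion (h1 v))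
  have hC1 : ∀ v (p : P v), C (CoprodI.of (M := fun u => P u) (i := v) p) = ⟨p, h1 v p.2⟩ := by
    intro v p
    change CoprodI.lift _ (CoprodI.of (M := fun u => P u) (i := v) p) = _
    rw [CoprodI.lift_of]
    rfl
  obtain ⟨F, hF1, -⟩ := h3 (CoprodI (fun v => P v)) (fun v => CoprodI.of (M := fun v => P v) (i := v))
  have hFC : F.comp C = MonoidHom.id _ := by
    refine CoprodI.ext_hom _ _ (fun v => ?_)
    ext p
    change F (C (CoprodI.of (M := fun u => P u) (i := v) p)) =
      CoprodI.of (M := fun v => P v) (i := v) p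
    rw [hC1, hF1 v p p.2]
  have hCF : C.comp F = MonoidHom.id N := by
    obtain ⟨G, -, hG⟩ := h3 N (fun v => Subgroup.inclusion (h1 v))
    have e1 := hG (C.comp F) (fun v p hp hN => by
      rw [MonoidHom.comp_apply, hF1 v p hp hN]
      exact hC1 v ⟨p, hp⟩)
    have e2 := hG (MonoidHom.id N) (fun v p hp hN => rfl)
    rw [e1, e2]
  exact ⟨MulEquiv.mk' ⟨C, F, fun x => DFunLike.congr_fun hFC x, fun x => DFunLike.congr_fun hCF x⟩
    (fun x y => map_mul C x y), fun v p => congrArg Subtype.val (hC1 v p)⟩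

variable {H E : ℤ → MFun} {α : ∀ n, MNat (H n) (E n)}

/-- **Free products.** -/
theorem relM_fp (h : SetupM H E α) (hP : ∀ n u, InjM (α n) (P u)) (hN : IsFreeProdM P N) (n : ℤ) :
    RelM (α n) (fun u => leE (hN.1 u)) := by
  classical
  let _ : LinearOrder U := linearOrderOfSTO WellOrderingRel
  have h1 : RelM (α n) (fun w => subE (fac (fun u => P u) w)) := by
    refine union_step (I := Finset U) (S := fun S => fs (fun u => P u) (S : Set U))
      (h n).2.2.1.1 (h n).2.2.1.2 (h n).2.2.2.1
      (fun i j => ⟨i ∪ j, Finset.subset_union_left, Finset.subset_union_right⟩)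
      (fun i j hij => fs_mono (by simpa using hij)) fs_fin (fun S => ?_)
    exact relM_fs (fun n => (h n).2.1) (fun n => (h n).2.2.2.2.2) hP S n
  obtain ⟨e, he⟩ := hN.iso
  exact h1.congr e (fun u => (facIso (fun u => P u) u).symm) (fun u p => by
    obtain ⟨q, rfl⟩ := (facIso (fun u => P u) u).surjective p
    rw [MulEquiv.symm_apply_apply]
    exact Subtype.ext (he u q))

/-- **Free products with bijective factors.** -/
theorem relM_fpb (h : SetupM H E α) (V : Set U) {L : V → Subgroup Γ}
    (hL : ∀ v : V, L v ⊓ N = P v) (hV : ∀ n (v : V), InjM (α n) (P v))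
    (hb : ∀ n, ∀ u ∉ V, BijM (α n) (P u)) (hN : IsFreeProdM P N) (n : ℤ) :
    RelM (α n) (fun v : V => incE (L v) N) := by
  classical
  have h1 := relM_fp h (fun n u => by
    by_cases hu : u ∈ V
    · exact hV n ⟨u, hu⟩
    · exact (hb n u hu).1) hN n
  have h2 := relM_drop (fun u => u ∈ V) (fun w hw => hb n w hw) h1
  exact h2.congr (MulEquiv.refl _) (fun v => MulEquiv.subgroupCongr (hL v).symm) (fun v p => rfl)

end

end Pool.Agent.Q105.MN
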