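import Pool.Agent.Q105.MN.Free
import Pool.Agent.Q105.MN.Amal

/-!
# Relatively bijective families: chains, directed unions, members with bijective maps
-/

set_option autoImplicit false
set_option linter.unusedSectionVars false

namespace Pool.Agent.Q105.MN

open Pool.Agent.Q262.NV Pool.Agent.Q105.NV

section nat

variable {V : Type} {P P' : V → Type} [∀ v, Group (P v)] [∀ v, Group (P' v)] {N N' : Type}
  [Group N] [Group N'] {j : ∀ v, Emb (P v) N} {j' : ∀ v, Emb (P' v) N'}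

theorem smM_nat (H : MFun) (k : Emb N N') (e : ∀ v, Emb (P v) (P' v))
    (h : ∀ v, k.f.comp (j v).f = (j' v).f.comp (e v).f) (a : Π₀ v, H.obj (P v)) :
    mp H k (smM H j a) = smM H j' (mapD (fun v => mp H (e v)) a) := by
  unfold smM
  rw [hom_sumD, sumD_mapD]
  exact sumD_congr (fun v x => mp_sq H (h v) x) a

theorem RelM.congr {H E : MFun} {β : MNat H E} (hr : RelM β j) (k : N ≃* N')
    (e : ∀ v, P v ≃* P' v) (h : ∀ v p, k ((j v).f p) = (j' v).f (e v p)) : RelM β j' := by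
  have h1 : ∀ v, (Emb.ofEquiv k).f.comp (j v).f = (j' v).f.comp (Emb.ofEquiv (e v)).f :=
    fun v => MonoidHom.ext (h v)
  have h2 : ∀ v, (Emb.ofEquiv k.symm).f.comp (j' v).f =
      (j v).f.comp (Emb.ofEquiv (e v).symm).f := by
    intro v
    refine MonoidHom.ext fun p => k.injective ?_
    change k (k.symm ((j' v).f p)) = k ((j v).f ((e v).symm p))
    rw [k.apply_symm_apply, h, (e v).apply_symm_apply]
  constructor
  · intro c
    obtain ⟨a, t, hat⟩ := hr.1 (mp E (Emb.ofEquiv k.symm) c)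
    refine ⟨mapD (fun v => mp E (Emb.ofEquiv (e v))) a, mp H (Emb.ofEquiv k) t, ?_⟩
    rw [← smM_nat E (Emb.ofEquiv k) _ h1, mp_nat, ← map_add, hat, map_equiv]
  · intro a t hat
    obtain ⟨b, hb, hb'⟩ := hr.2 (mapD (fun v => mp E (Emb.ofEquiv (e v).symm)) a)
      (mp H (Emb.ofEquiv k.symm) t) (by
        rw [← smM_nat E (Emb.ofEquiv k.symm) _ h2, hat, mp_nat])
    refine ⟨mapD (fun v => mp H (Emb.ofEquiv (e v))) b, ?_, fun v => ?_⟩
    · rw [← smM_nat H (Emb.ofEquiv k) _ h1, hb, map_equiv]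
    · change β.app (P' v) (mp H (Emb.ofEquiv (e v)) (b v)) = a v
      rw [mp_nat, hb']
      exact map_equiv E (e v) (a v)

end nat

section chain

variable {Γ : Type} [Group Γ]

/-- the step for subgroups -/
theorem step_subM {H' E' H E : MFun} {β : MNat H' E'} {α : MNat H E} (hS : FreeSeqM β α)
    (hcH : ExNM H) (hcE : ExNM E) (hiE' : InnerTrivM E') (hiH : InnerTrivM H)
    (hiE : InnerTrivM E) {V : Type} {L : V → Subgroup Γ} {M M' : Subgroup Γ}
    (hM : FreeStep M M') (hL : ∀ v, ∀ γ ∈ M', ∃ l ∈ L v, ∃ n ∈ M, γ = l * n)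
    (hβ : RelM β (fun v => incE (L v) M)) (hα : RelM α (fun v => incE (L v) M))
    (hI : ∀ v, InjM α (L v ⊓ M : Subgroup Γ)) (hI' : ∀ v, InjM α (L v ⊓ M' : Subgroup Γ)) :
    RelM β (fun v => incE (L v) M') := by
  obtain ⟨hle, X, π, hπ, hker⟩ := hM
  have hsur : ∀ v, Function.Surjective (π.comp (incE (L v) M').f) := by
    intro v y
    obtain ⟨x, rfl⟩ := hπ y
    obtain ⟨l, hl, n, hn, h⟩ := hL v (x : Γ) x.2
    have hl' : l ∈ M' := by
      have h1 : l = (x : Γ) * n⁻¹ := by rw [h, mul_inv_cancel_right]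
      rw [h1]
      exact mul_mem x.2 (inv_mem (hle hn))
    refine ⟨⟨l, hl, hl'⟩, ?_⟩
    change π ⟨l, hl'⟩ = π x
    have h2 : x = ⟨l, hl'⟩ * ⟨n, hle hn⟩ := Subtype.ext h
    rw [h2, map_mul, (hker ⟨n, hle hn⟩).2 hn, mul_one]
  let S : Sj X M' := ⟨π, hπ⟩
  let S' : ∀ v, Sj X (L v ⊓ M' : Subgroup Γ) := fun v => ⟨π.comp (incE (L v) M').f, hsur v⟩
  let e : M ≃* S.N :=
    { toFun := fun m => ⟨⟨m, hle m.2⟩, (hker _).2 m.2⟩
      invFun := fun x => ⟨((S.incl x : M') : Γ), (hker _).1 x.2⟩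
      left_inv := fun m => rfl
      right_inv := fun x => rfl
      map_mul' := fun m m' => rfl }
  let e' : ∀ v, (L v ⊓ M : Subgroup Γ) ≃* (S' v).N := fun v =>
    { toFun := fun m => ⟨⟨m, m.2.1, hle m.2.2⟩, (hker _).2 m.2.2⟩
      invFun := fun x => ⟨(((S' v).incl x : (L v ⊓ M' : Subgroup Γ)) : Γ),
        ((S' v).incl x : (L v ⊓ M' : Subgroup Γ)).2.1, (hker _).1 x.2⟩
      left_inv := fun m => rfl
      right_inv := fun x => rfl
      map_mul' := fun m m' => rfl }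
  exact free_step (S := S) (S' := S') (f := fun v => incE (L v) M') (fun v => rfl) hS hcH hcE hiE'
    hiH hiE (hβ.congr e e' (fun v p => rfl)) (hα.congr e e' (fun v p => rfl))
    (fun v => injM_iso α (e' v).symm (hI v)) hI'

variable {H E : ℤ → MFun} {α : ∀ n, MNat (H n) (E n)}

/-- **Chains of extensions by free groups.** -/
theorem chainM (hS : ∀ n, FreeSeqM (α (n + 1)) (α n)) (hiH : ∀ n, InnerTrivM (H n))
    (hiE : ∀ n, InnerTrivM (E n)) {V : Type} {L : V → Subgroup Γ} {M : ℕ → Subgroup Γ} {k : ℕ}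
    (hM : ∀ i < k, FreeStep (M i) (M (i + 1)))
    (hL : ∀ v, ∀ γ ∈ M k, ∃ l ∈ L v, ∃ n ∈ M 0, γ = l * n)
    (hI : ∀ n v, ∀ i ≤ k, InjM (α n) (L v ⊓ M i : Subgroup Γ))
    (h0 : ∀ n, RelM (α n) (fun v => incE (L v) (M 0))) :
    ∀ i ≤ k, M 0 ≤ M i ∧ ∀ n, RelM (α n) (fun v => incE (L v) (M i)) := by
  intro i
  induction i with
  | zero => exact fun _ => ⟨le_rfl, h0⟩
  | succ i ih =>
    intro hi
    obtain ⟨h1, h2⟩ := ih (by omega)
    have h3 := hM i (by omega)
    refine ⟨h1.trans h3.1, fun n => ?_⟩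
    obtain ⟨m, rfl⟩ : ∃ m, n = m + 1 := ⟨n - 1, by ring⟩
    obtain ⟨m', rfl⟩ : ∃ m', m = m' + 1 := ⟨m - 1, by ring⟩
    refine step_subM (hS _) (hS m').1 (hS m').2.1 (hiE _) (hiH _) (hiE _) h3 (fun v γ hγ => ?_)
      (h2 _) (h2 _) (fun v => hI _ v i (by omega)) (fun v => hI _ v (i + 1) hi)
    obtain ⟨l, hl, n, hn, h⟩ := hL v γ (by
      have h4 := mono_chain hM (k - (i + 1)) (i + 1) (by omega)
      rw [show i + 1 + (k - (i + 1)) = k by omega] at h4
      exact h4 hγ)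
    exact ⟨l, hl, n, h1 hn, h⟩

end chain

section union

variable {Γ : Type} [Group Γ] {V I : Type} [Preorder I] [Nonempty I] {S : I → Subgroup Γ}
  {L : V → Subgroup Γ}

/-- the inclusion of `L ∩ S` in `L` -/
def incL (L M : Subgroup Γ) : Emb (L ⊓ M : Subgroup Γ) L :=
  ⟨Subgroup.inclusion inf_le_left, Subgroup.inclusion_injective _⟩

/-- the inclusion of a subgroup in a larger one -/
def leE {L M : Subgroup Γ} (h : L ≤ M) : Emb L M :=
  ⟨Subgroup.inclusion h, Subgroup.inclusion_injective _⟩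

theorem lift_one {E : MFun} (hc : ContM E) (hd : ∀ i j : I, ∃ k, i ≤ k ∧ j ≤ k)
    (hS : Monotone S) (hU : ∀ g, ∃ i, g ∈ S i) (v : V) (a : E.obj (L v)) :
    ∃ (i : I) (b : E.obj (L v ⊓ S i : Subgroup Γ)), mp E (incL (L v) (S i)) b = a := by
  obtain ⟨i, y, hy⟩ := hc (L v) I hd (fun i => (S i).subgroupOf (L v))
    (fun i j hij x hx => hS hij hx) (fun g => by
      obtain ⟨i, hi⟩ := hU g
      exact ⟨i, hi⟩) a
  let e : Emb ((S i).subgroupOf (L v)) (L v ⊓ S i : Subgroup Γ) :=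
    ⟨{ toFun := fun x => ⟨((x : L v) : Γ), (x : L v).2, x.2⟩
       map_one' := rfl
       map_mul' := fun _ _ => rfl }, fun x y h => by
      have h1 := congrArg (fun z : (L v ⊓ S i : Subgroup Γ) => (z : Γ)) h
      exact Subtype.ext (Subtype.ext h1)⟩
  refine ⟨i, mp E e y, ?_⟩
  rw [mp_comp, hy]
  exact mp_congr E (e' := ⟨((S i).subgroupOf (L v)).subtype, Subgroup.subtype_injective _⟩)
    (MonoidHom.ext fun x => rfl) y

theorem lift_all {E : MFun} (hc : ContM E) (hd : ∀ i j : I, ∃ k, i ≤ k ∧ j ≤ k)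
    (hS : Monotone S) (hU : ∀ g, ∃ i, g ∈ S i) (a : Π₀ v, E.obj (L v)) :
    ∃ (i : I) (b : Π₀ v, E.obj (L v ⊓ S i : Subgroup Γ)),
      mapD (fun v => mp E (incL (L v) (S i))) b = a := by
  classical
  have push : ∀ (i k : I) (hik : i ≤ k) (b : Π₀ v, E.obj (L v ⊓ S i : Subgroup Γ)),
      ∃ c : Π₀ v, E.obj (L v ⊓ S k : Subgroup Γ),
        mapD (fun v => mp E (incL (L v) (S k))) c =
          mapD (fun v => mp E (incL (L v) (S i))) b := by
    intro i k hik b
    refine ⟨mapD (fun v => mp E (leE (inf_le_inf_left (L v) (hS hik)))) b, mapD_ext fun v => ?_⟩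
    change mp E _ (mp E _ (b v)) = mp E _ (b v)
    rw [mp_comp]
    exact mp_congr E (MonoidHom.ext fun x => rfl) _
  induction a using DFinsupp.induction with
  | h0 => exact ⟨Classical.arbitrary I, 0, map_zero _⟩
  | ha v x f _ _ ih =>
    obtain ⟨i, b, hb⟩ := ih
    obtain ⟨j, y, hy⟩ := lift_one (L := L) hc hd hS hU v x
    obtain ⟨k, hik, hjk⟩ := hd i j
    obtain ⟨c, hc1⟩ := push i k hik b
    obtain ⟨c', hc2⟩ := push j k hjk (DFinsupp.single v y)
    refine ⟨k, c' + c, ?_⟩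
    rw [map_add, hc1, hb, hc2, mapD_single, hy]

/-- **Directed unions.** -/
theorem union_step {H E : MFun} {β : MNat H E} (hcH : ContM H) (hcE : ContM E)
    (hk : ContKerM E) (hd : ∀ i j : I, ∃ k, i ≤ k ∧ j ≤ k) (hS : Monotone S)
    (hU : ∀ g, ∃ i, g ∈ S i) (h : ∀ i, RelM β (fun v => incE (L v) (S i))) :
    RelM β (fun v => subE (L v)) := by
  have comm : ∀ (i : I) (v : V), (subE (S i)).f.comp (incE (L v) (S i)).f =
      (subE (L v)).f.comp (incL (L v) (S i)).f := fun i v => MonoidHom.ext fun x => rfl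
  constructor
  · intro c
    obtain ⟨i, y, hy⟩ := hcE Γ I hd S hS hU c
    obtain ⟨a, t, hat⟩ := (h i).1 y
    refine ⟨mapD (fun v => mp E (incL (L v) (S i))) a, mp H (subE (S i)) t, ?_⟩
    rw [← smM_nat E (subE (S i)) _ (comm i), mp_nat, ← map_add, hat, hy]
    rfl
  · intro a t hat
    obtain ⟨i, b, hb⟩ := lift_all (L := L) hcE hd hS hU a
    obtain ⟨i', s, hs⟩ := hcH Γ I hd S hS hU t
    obtain ⟨k, hik, hik'⟩ := hd i i'
    obtain ⟨b1, hb1⟩ : ∃ b1 : Π₀ v, E.obj (L v ⊓ S k : Subgroup Γ),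
        mapD (fun v => mp E (incL (L v) (S k))) b1 = a := by
      refine ⟨mapD (fun v => mp E (leE (inf_le_inf_left (L v) (hS hik)))) b, ?_⟩
      rw [← hb]
      refine mapD_ext fun v => ?_
      change mp E _ (mp E _ (b v)) = mp E _ (b v)
      rw [mp_comp]
      exact mp_congr E (MonoidHom.ext fun x => rfl) _
    obtain ⟨s1, hs1⟩ : ∃ s1 : H.obj (S k), mp H (subE (S k)) s1 = t := by
      refine ⟨mp H (leE (hS hik')) s, ?_⟩
      rw [mp_comp, hs]
      exact mp_congr H (e' := subE (S i')) (MonoidHom.ext fun x => rfl) s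
    have h1 : mp E (subE (S k)) (smM E (fun v => incE (L v) (S k)) b1 - β.app (S k) s1) = 0 := by
      rw [map_sub, smM_nat E (subE (S k)) _ (comm k), hb1, ← mp_nat, hs1, hat, sub_self]
    obtain ⟨l, hkl, hl⟩ := hk Γ I hd S hS hU k _ h1
    have h2 : mp E (leE (hS hkl)) (smM E (fun v => incE (L v) (S k)) b1 - β.app (S k) s1) = 0 :=
      hl
    have comm' : ∀ v, (leE (hS hkl)).f.comp (incE (L v) (S k)).f =
        (incE (L v) (S l)).f.comp (leE (inf_le_inf_left (L v) (hS hkl))).f := fun v =>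
      MonoidHom.ext fun x => rfl
    rw [map_sub, smM_nat E (leE (hS hkl)) _ comm', ← mp_nat, sub_eq_zero] at h2
    obtain ⟨y, hy, hy'⟩ := (h l).2 _ _ h2
    refine ⟨mapD (fun v => mp H (incL (L v) (S l))) y, ?_, fun v => ?_⟩
    · rw [← smM_nat H (subE (S l)) _ (comm l), hy, mp_comp, ← hs1]
      exact mp_congr H (MonoidHom.ext fun x => rfl) s1
    · change β.app (L v) (mp H (incL (L v) (S l)) (y v)) = a v
      rw [mp_nat, hy', ← hb1]
      change mp E _ (mp E _ (b1 v)) = mp E _ (b1 v)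
      rw [mp_comp]
      exact mp_congr E (MonoidHom.ext fun x => rfl) _

end union

end Pool.Agent.Q105.MN
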