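import Pool.Agent.Q105.MN.FreeP

/-!
# Amalgamated products of subgroups, and their preimages
-/

set_option autoImplicit false
set_option linter.unusedSectionVars false

namespace Pool.Agent.Q105.MN

open Pool.Agent.Q262.NV Pool.Agent.Q105.NV

/-- the square -/
def IsAmal.sq {Q : Type} [Group Q] {K A B P : Subgroup Q} (h : IsAmal K A B P) : Sq K A B P where
  i := leE h.1.1
  j := leE h.1.2.1
  a := leE h.1.2.2.1
  b := leE h.1.2.2.2
  comm := MonoidHom.ext fun x => rfl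
  univ := fun T _ f g hfg => by
    obtain ⟨F, ⟨h1, h2⟩, h3⟩ := h.2 T f g (fun x hA hB hK => DFunLike.congr_fun hfg ⟨x, hK⟩)
    refine ⟨F, ⟨MonoidHom.ext fun x => h1 x x.2 _, MonoidHom.ext fun x => h2 x x.2 _⟩, ?_⟩
    rintro F' ⟨h4, h5⟩
    exact h3 F' ⟨fun x hA hP => DFunLike.congr_fun h4 ⟨x, hA⟩,
      fun x hB hP => DFunLike.congr_fun h5 ⟨x, hB⟩⟩

theorem IsAmal.gen {Q : Type} [Group Q] {K A B P : Subgroup Q} (h : IsAmal K A B P) {x : Q}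
    (hx : x ∈ P) : x ∈ Subgroup.closure ((A : Set Q) ∪ B) := by
  let C := Subgroup.closure ((A : Set Q) ∪ B)
  have hA : A ≤ C := fun a ha => Subgroup.subset_closure (Or.inl ha)
  have hB : B ≤ C := fun a ha => Subgroup.subset_closure (Or.inr ha)
  have hC : C ≤ P := (Subgroup.closure_le _).2 (fun a ha => ha.elim (h.1.2.2.1 ·) (h.1.2.2.2 ·))
  obtain ⟨F, ⟨h1, h2⟩, -⟩ := h.2 C (Subgroup.inclusion hA) (Subgroup.inclusion hB)
    (fun x _ _ _ => rfl)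
  obtain ⟨G, -, hG⟩ := h.2 P (Subgroup.inclusion h.1.2.2.1) (Subgroup.inclusion h.1.2.2.2)
    (fun x _ _ _ => rfl)
  have e1 := hG (MonoidHom.id P) ⟨fun x _ _ => rfl, fun x _ _ => rfl⟩
  have e2 := hG ((Subgroup.inclusion hC).comp F) ⟨fun x hA hP => by
    rw [MonoidHom.comp_apply, h1 x hA hP]; rfl, fun x hB hP => by
    rw [MonoidHom.comp_apply, h2 x hB hP]; rfl⟩
  have e3 : (⟨x, hx⟩ : P) = Subgroup.inclusion hC (F ⟨x, hx⟩) :=
    DFunLike.congr_fun (e1.trans e2.symm) ⟨x, hx⟩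
  have e4 : x = ((F ⟨x, hx⟩ : C) : Q) := congrArg Subtype.val e3
  rw [e4]
  exact (F ⟨x, hx⟩).2

theorem exists_lift {A' A X : Type} [Group A'] [Group A] [Group X] (p : A' →* A)
    (hp : Function.Surjective p) (ψ : A' →* X) (hk : ∀ x, p x = 1 → ψ x = 1) :
    ∃ F : A →* X, ∀ x, F (p x) = ψ x := by
  refine ⟨p.liftOfRightInverse (Function.surjInv hp) (Function.rightInverse_surjInv hp)
    ⟨ψ, fun x hx => hk x hx⟩, fun x => ?_⟩
  exact MonoidHom.liftOfRightInverse_comp_apply _ _ _ _ _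

section pull

variable {Γ Q : Type} [Group Γ] [Group Q] {π : Γ →* Q} {K A B P : Subgroup Q}
  {K' A' B' P' : Subgroup Γ}

/-- preimages of amalgamated products -/
theorem IsAmal.pull (h : IsAmal K A B P) (hK : ∀ x, x ∈ K' ↔ x ∈ P' ∧ π x ∈ K)
    (hA : ∀ x, x ∈ A' ↔ x ∈ P' ∧ π x ∈ A) (hB : ∀ x, x ∈ B' ↔ x ∈ P' ∧ π x ∈ B)
    (hP : ∀ x ∈ P', π x ∈ P) (hs : ∀ q ∈ P, ∃ x ∈ P', π x = q) : IsAmal K' A' B' P' := by
  have hKA' : K' ≤ A' := fun x hx => (hA x).2 ⟨((hK x).1 hx).1, h.1.1 ((hK x).1 hx).2⟩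
  have hKB' : K' ≤ B' := fun x hx => (hB x).2 ⟨((hK x).1 hx).1, h.1.2.1 ((hK x).1 hx).2⟩
  have hAP' : A' ≤ P' := fun x hx => ((hA x).1 hx).1
  have hBP' : B' ≤ P' := fun x hx => ((hB x).1 hx).1
  have gen : ∀ q ∈ Subgroup.closure ((A : Set Q) ∪ B), ∀ x ∈ P', π x = q →
      x ∈ Subgroup.closure ((A' : Set Γ) ∪ B') := by
    intro q hq
    have hCP : ∀ q ∈ Subgroup.closure ((A : Set Q) ∪ B), q ∈ P := fun q hq =>
      (Subgroup.closure_le P).2 (fun a ha => ha.elim (h.1.2.2.1 ·) (h.1.2.2.2 ·)) hq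
    induction hq using Subgroup.closure_induction with
    | mem q hq =>
      intro x hx hxq
      refine Subgroup.subset_closure ?_
      rcases hq with hq | hq
      · exact Or.inl ((hA x).2 ⟨hx, by rw [hxq]; exact hq⟩)
      · exact Or.inr ((hB x).2 ⟨hx, by rw [hxq]; exact hq⟩)
    | one =>
      intro x hx hxq
      exact Subgroup.subset_closure (Or.inl ((hA x).2 ⟨hx, by rw [hxq]; exact one_mem _⟩))
    | mul a b ha hb iha ihb =>
      intro x hx hxq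
      obtain ⟨y, hy, hya⟩ := hs a (hCP a ha)
      have h1 := ihb (y⁻¹ * x) (mul_mem (inv_mem hy) hx) (by
        rw [map_mul, map_inv, hya, hxq, inv_mul_cancel_left])
      have h2 := mul_mem (iha y hy hya) h1
      rwa [mul_inv_cancel_left] at h2
    | inv a ha iha =>
      intro x hx hxq
      have h1 := iha x⁻¹ (inv_mem hx) (by rw [map_inv, hxq, inv_inv])
      have h2 := inv_mem h1
      rwa [inv_inv] at h2
  have gen' : ∀ x ∈ P', x ∈ Subgroup.closure ((A' : Set Γ) ∪ B') := fun x hx =>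
    gen (π x) (h.gen (hP x hx)) x hx rfl
  refine ⟨⟨hKA', hKB', hAP', hBP'⟩, fun T _ f g hfg => ?_⟩
  -- the graph
  let gr : Set (Γ × T) := {z | (∃ hz : z.1 ∈ A', f ⟨z.1, hz⟩ = z.2) ∨
    ∃ hz : z.1 ∈ B', g ⟨z.1, hz⟩ = z.2}
  let G : Subgroup (Γ × T) := Subgroup.closure gr
  have hfG : ∀ a : A', ((a : Γ), f a) ∈ G := fun a => Subgroup.subset_closure (Or.inl ⟨a.2, rfl⟩)
  have hgG : ∀ a : B', ((a : Γ), g a) ∈ G := fun a => Subgroup.subset_closure (Or.inr ⟨a.2, rfl⟩)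
  let sA : A' →* G :=
    { toFun := fun a => ⟨((a : Γ), f a), hfG a⟩
      map_one' := Subtype.ext (Prod.ext rfl (map_one f))
      map_mul' := fun a b => Subtype.ext (Prod.ext rfl (map_mul f a b)) }
  let sB : B' →* G :=
    { toFun := fun a => ⟨((a : Γ), g a), hgG a⟩
      map_one' := Subtype.ext (Prod.ext rfl (map_one g))
      map_mul' := fun a b => Subtype.ext (Prod.ext rfl (map_mul g a b)) }
  let NA : Subgroup A' := (π.comp A'.subtype).ker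
  let R : Subgroup G := NA.map sA
  have hGP : ∀ z ∈ G, z.1 ∈ P' := by
    intro z hz
    induction hz using Subgroup.closure_induction with
    | mem z hz => exact hz.elim (fun h => hAP' h.1) (fun h => hBP' h.1)
    | one => exact one_mem _
    | mul a b _ _ ha hb => exact mul_mem ha hb
    | inv a _ ha => exact inv_mem ha
  have hNK : ∀ n : A', n ∈ NA → (n : Γ) ∈ K' := fun n hn =>
    (hK _).2 ⟨hAP' n.2, by
      have h1 : π (n : Γ) = 1 := hn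
      rw [h1]
      exact one_mem _⟩
  have hgen : ∀ z ∈ gr, ∀ hz : z ∈ G, ∀ n : A', n ∈ NA →
      (⟨z, hz⟩ : G) * sA n * (⟨z, hz⟩ : G)⁻¹ ∈ R := by
    intro z hz hz' n hn
    have hn1 : π (n : Γ) = 1 := hn
    rcases hz with ⟨hz1, hz2⟩ | ⟨hz1, hz2⟩
    · refine ⟨⟨z.1, hz1⟩ * n * (⟨z.1, hz1⟩)⁻¹, ?_, ?_⟩
      · change π (z.1 * (n : Γ) * z.1⁻¹) = 1
        rw [map_mul, map_mul, hn1, mul_one, map_inv, mul_inv_cancel]
      · refine Subtype.ext (Prod.ext rfl ?_)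
        change f (⟨z.1, hz1⟩ * n * (⟨z.1, hz1⟩)⁻¹) = z.2 * f n * z.2⁻¹
        rw [map_mul, map_mul, map_inv, hz2]
    · have hnB : (n : Γ) ∈ B' := hKB' (hNK n hn)
      have hm : z.1 * (n : Γ) * z.1⁻¹ ∈ K' := by
        refine (hK _).2 ⟨mul_mem (mul_mem (hBP' hz1) (hAP' n.2)) (inv_mem (hBP' hz1)), ?_⟩
        rw [map_mul, map_mul, hn1, mul_one, map_inv, mul_inv_cancel]
        exact one_mem _
      refine ⟨⟨z.1 * (n : Γ) * z.1⁻¹, hKA' hm⟩, ?_, ?_⟩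
      · change π (z.1 * (n : Γ) * z.1⁻¹) = 1
        rw [map_mul, map_mul, hn1, mul_one, map_inv, mul_inv_cancel]
      · refine Subtype.ext (Prod.ext rfl ?_)
        change f ⟨z.1 * (n : Γ) * z.1⁻¹, hKA' hm⟩ = z.2 * f n * z.2⁻¹
        rw [hfg _ (hKA' hm) (hKB' hm) hm, ← hz2]
        have h1 : f n = g ⟨n, hnB⟩ := hfg n n.2 hnB (hNK n hn)
        have h2 : (⟨z.1 * (n : Γ) * z.1⁻¹, hKB' hm⟩ : B') =
          ⟨z.1, hz1⟩ * ⟨n, hnB⟩ * (⟨z.1, hz1⟩)⁻¹ := rfl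
        rw [h1, h2, map_mul, map_mul, map_inv]
  have hinv : ∀ z ∈ gr, z⁻¹ ∈ gr := by
    rintro z (⟨hz1, hz2⟩ | ⟨hz1, hz2⟩)
    · refine Or.inl ⟨inv_mem hz1, ?_⟩
      change f (⟨z.1, hz1⟩⁻¹) = z.2⁻¹
      rw [map_inv, hz2]
    · refine Or.inr ⟨inv_mem hz1, ?_⟩
      change g (⟨z.1, hz1⟩⁻¹) = z.2⁻¹
      rw [map_inv, hz2]
  have hconj : ∀ z ∈ G, (∀ hz : z ∈ G, ∀ n : A', n ∈ NA →
      (⟨z, hz⟩ : G) * sA n * (⟨z, hz⟩ : G)⁻¹ ∈ R) ∧
      ∀ hz : z⁻¹ ∈ G, ∀ n : A', n ∈ NA →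
      (⟨z⁻¹, hz⟩ : G) * sA n * (⟨z⁻¹, hz⟩ : G)⁻¹ ∈ R := by
    intro z hz
    induction hz using Subgroup.closure_induction with
    | mem z hz => exact ⟨hgen z hz, hgen z⁻¹ (hinv z hz)⟩
    | one =>
      have h0 : ∀ hz : (1 : Γ × T) ∈ G, ∀ n : A', n ∈ NA →
          (⟨1, hz⟩ : G) * sA n * (⟨1, hz⟩ : G)⁻¹ ∈ R := by
        intro hz' n hn
        refine ⟨n, hn, ?_⟩
        have h1 : (⟨1, hz'⟩ : G) = 1 := rfl
        rw [h1, one_mul, inv_one, mul_one]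
      refine ⟨h0, fun hz n hn => ?_⟩
      have h1 : (⟨1⁻¹, hz⟩ : G) = ⟨1, one_mem _⟩ := Subtype.ext inv_one
      rw [h1]
      exact h0 _ n hn
    | mul a b ha hb iha ihb =>
      refine ⟨fun hz' n hn => ?_, fun hz' n hn => ?_⟩
      · obtain ⟨m, hm, hm'⟩ := ihb.1 hb n hn
        obtain ⟨l, hl, hl'⟩ := iha.1 ha m hm
        refine ⟨l, hl, ?_⟩
        have h1 : (⟨a * b, hz'⟩ : G) = (⟨a, ha⟩ : G) * ⟨b, hb⟩ := rfl
        rw [hl', hm', h1]
        group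
      · obtain ⟨m, hm, hm'⟩ := iha.2 (inv_mem ha) n hn
        obtain ⟨l, hl, hl'⟩ := ihb.2 (inv_mem hb) m hm
        refine ⟨l, hl, ?_⟩
        have h1 : (⟨(a * b)⁻¹, hz'⟩ : G) = (⟨b⁻¹, inv_mem hb⟩ : G) * ⟨a⁻¹, inv_mem ha⟩ :=
          Subtype.ext (mul_inv_rev a b)
        rw [hl', hm', h1]
        group
    | inv a ha iha =>
      refine ⟨iha.2, fun hz n hn => ?_⟩
      have h1 : (⟨a⁻¹⁻¹, hz⟩ : G) = ⟨a, ha⟩ := Subtype.ext (inv_inv a)
      rw [h1]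
      exact iha.1 ha n hn
  have hR : R.Normal := ⟨by
    rintro _ ⟨n, hn, rfl⟩ z
    exact (hconj z z.2).1 z.2 n hn⟩
  -- the homomorphisms of the factors to the quotient of the graph
  let pA : A' →* A := (π.comp A'.subtype).codRestrict A (fun a => ((hA _).1 a.2).2)
  let pB : B' →* B := (π.comp B'.subtype).codRestrict B (fun a => ((hB _).1 a.2).2)
  have hpA : Function.Surjective pA := by
    rintro ⟨a, ha⟩
    obtain ⟨x, hx, hxa⟩ := hs a (h.1.2.2.1 ha)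
    exact ⟨⟨x, (hA x).2 ⟨hx, by rw [hxa]; exact ha⟩⟩, Subtype.ext hxa⟩
  have hpB : Function.Surjective pB := by
    rintro ⟨a, ha⟩
    obtain ⟨x, hx, hxa⟩ := hs a (h.1.2.2.2 ha)
    exact ⟨⟨x, (hB x).2 ⟨hx, by rw [hxa]; exact ha⟩⟩, Subtype.ext hxa⟩
  obtain ⟨FA, hFA⟩ := exists_lift pA hpA ((QuotientGroup.mk' R).comp sA) (fun x hx => by
    refine (QuotientGroup.eq_one_iff _).2 ⟨x, ?_, rfl⟩
    exact congrArg Subtype.val hx)
  obtain ⟨FB, hFB⟩ := exists_lift pB hpB ((QuotientGroup.mk' R).comp sB) (fun x hx => by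
    have hx1 : π (x : Γ) = 1 := congrArg Subtype.val hx
    have hxK : (x : Γ) ∈ K' := (hK _).2 ⟨hBP' x.2, by rw [hx1]; exact one_mem _⟩
    refine (QuotientGroup.eq_one_iff _).2 ⟨⟨x, hKA' hxK⟩, hx1, ?_⟩
    exact Subtype.ext (Prod.ext rfl (hfg _ _ x.2 hxK)))
  obtain ⟨F, ⟨hF1, hF2⟩, -⟩ := h.2 (G ⧸ R) FA FB (fun x hxA hxB hxK => by
    obtain ⟨y, hy, hyx⟩ := hs x (h.1.2.2.1 hxA)
    have hyK : y ∈ K' := (hK y).2 ⟨hy, by rw [hyx]; exact hxK⟩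
    have e1 : pA ⟨y, hKA' hyK⟩ = ⟨x, hxA⟩ := Subtype.ext hyx
    have e2 : pB ⟨y, hKB' hyK⟩ = ⟨x, hxB⟩ := Subtype.ext hyx
    rw [← e1, ← e2, hFA, hFB]
    change (QuotientGroup.mk' R) (sA _) = (QuotientGroup.mk' R) (sB _)
    exact congrArg _ (Subtype.ext (Prod.ext rfl (hfg y _ _ hyK))))
  have hG : ∀ z ∈ G, ∀ (hz : z ∈ G) (hP1 : π z.1 ∈ P), F ⟨π z.1, hP1⟩ =
      QuotientGroup.mk' R ⟨z, hz⟩ := by
    intro z hz
    induction hz using Subgroup.closure_induction with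
    | mem z hz =>
      intro hz' hP1
      rcases hz with ⟨hz1, hz2⟩ | ⟨hz1, hz2⟩
      · rw [hF1 _ ((hA _).1 hz1).2 hP1]
        refine (hFA ⟨z.1, hz1⟩).trans ?_
        have e : sA ⟨z.1, hz1⟩ = ⟨z, hz'⟩ := Subtype.ext (Prod.ext rfl hz2)
        exact congrArg (QuotientGroup.mk' R) e
      · rw [hF2 _ ((hB _).1 hz1).2 hP1]
        refine (hFB ⟨z.1, hz1⟩).trans ?_
        have e : sB ⟨z.1, hz1⟩ = ⟨z, hz'⟩ := Subtype.ext (Prod.ext rfl hz2)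
        exact congrArg (QuotientGroup.mk' R) e
    | one =>
      intro hz' hP1
      have e1 : (⟨π (1 : Γ × T).1, hP1⟩ : P) = 1 := Subtype.ext (map_one π)
      have e2 : (⟨1, hz'⟩ : G) = 1 := rfl
      rw [e1, e2, map_one, map_one]
    | mul a b ha hb iha ihb =>
      intro hz' hP1
      have ha1 := hP _ (hGP a ha)
      have hb1 := hP _ (hGP b hb)
      have e1 : (⟨π (a * b).1, hP1⟩ : P) = ⟨π a.1, ha1⟩ * ⟨π b.1, hb1⟩ :=
        Subtype.ext (map_mul π a.1 b.1)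
      have e2 : (⟨a * b, hz'⟩ : G) = ⟨a, ha⟩ * ⟨b, hb⟩ := rfl
      rw [e1, e2, map_mul, map_mul, iha ha ha1, ihb hb hb1]
    | inv a ha iha =>
      intro hz' hP1
      have ha1 := hP _ (hGP a ha)
      have e1 : (⟨π a⁻¹.1, hP1⟩ : P) = (⟨π a.1, ha1⟩)⁻¹ := Subtype.ext (map_inv π a.1)
      have e2 : (⟨a⁻¹, hz'⟩ : G) = (⟨a, ha⟩)⁻¹ := rfl
      rw [e1, e2, map_inv, map_inv, iha ha ha1]
  have hinj : ∀ t : T, ((1 : Γ), t) ∈ G → t = 1 := by
    intro t ht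
    have h1 : π (((1 : Γ), t) : Γ × T).1 ∈ P := by
      change π 1 ∈ P
      rw [map_one]
      exact one_mem _
    have h2 := hG _ ht ht h1
    have e1 : (⟨π (((1 : Γ), t) : Γ × T).1, h1⟩ : P) = 1 := Subtype.ext (map_one π)
    rw [e1, map_one] at h2
    obtain ⟨n, -, hn⟩ := (QuotientGroup.eq_one_iff _).1 h2.symm
    have h3 : (n : Γ) = 1 := congrArg (fun z : G => (z : Γ × T).1) hn
    have h4 : f n = t := congrArg (fun z : G => (z : Γ × T).2) hn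
    have h5 : n = 1 := Subtype.ext h3
    rw [← h4, h5, map_one]
  have huniq : ∀ (x : Γ) (t t' : T), (x, t) ∈ G → (x, t') ∈ G → t = t' := by
    intro x t t' h1 h2
    have h3 := mul_mem (inv_mem h1) h2
    have h4 : ((x, t) : Γ × T)⁻¹ * (x, t') = (1, t⁻¹ * t') :=
      Prod.ext (inv_mul_cancel x) rfl
    rw [h4] at h3
    exact (inv_mul_eq_one.1 (hinj _ h3))
  have hex : ∀ x ∈ P', ∃ t : T, (x, t) ∈ G := by
    intro x hx
    have h1 := gen' x hx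
    clear hx
    induction h1 using Subgroup.closure_induction with
    | mem x hx =>
      rcases hx with hx | hx
      · exact ⟨_, hfG ⟨x, hx⟩⟩
      · exact ⟨_, hgG ⟨x, hx⟩⟩
    | one => exact ⟨1, one_mem _⟩
    | mul a b _ _ ha hb =>
      obtain ⟨t, ht⟩ := ha
      obtain ⟨s, hs⟩ := hb
      exact ⟨t * s, mul_mem ht hs⟩
    | inv a _ ha =>
      obtain ⟨t, ht⟩ := ha
      exact ⟨t⁻¹, inv_mem ht⟩
  choose φ hφ using hex
  refine ⟨⟨⟨fun x => φ x x.2, huniq 1 _ _ (hφ 1 _) (one_mem _)⟩, fun x y =>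
    huniq _ _ _ (hφ _ _) (mul_mem (hφ x x.2) (hφ y y.2))⟩, ⟨fun x hxA hxP =>
    huniq _ _ _ (hφ _ _) (hfG ⟨x, hxA⟩), fun x hxB hxP =>
    huniq _ _ _ (hφ _ _) (hgG ⟨x, hxB⟩)⟩, ?_⟩
  rintro F' ⟨h1, h2⟩
  refine MonoidHom.ext fun x => ?_
  have h3 : ∀ x ∈ Subgroup.closure ((A' : Set Γ) ∪ B'), ∀ hx : x ∈ P', (x, F' ⟨x, hx⟩) ∈ G := by
    intro x hx
    have hCP : ∀ q ∈ Subgroup.closure ((A' : Set Γ) ∪ B'), q ∈ P' := fun q hq =>
      (Subgroup.closure_le P').2 (fun a ha => ha.elim (hAP' ·) (hBP' ·)) hq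
    induction hx using Subgroup.closure_induction with
    | mem x hx =>
      intro hxP
      rcases hx with hx | hx
      · rw [h1 x hx hxP]
        exact hfG ⟨x, hx⟩
      · rw [h2 x hx hxP]
        exact hgG ⟨x, hx⟩
    | one =>
      intro hxP
      have e1 : (⟨1, hxP⟩ : P') = 1 := rfl
      rw [e1, map_one]
      exact one_mem _
    | mul a b ha hb iha ihb =>
      intro hxP
      have e1 : (⟨a * b, hxP⟩ : P') = ⟨a, hCP a ha⟩ * ⟨b, hCP b hb⟩ := rfl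
      rw [e1, map_mul]
      exact mul_mem (iha (hCP a ha)) (ihb (hCP b hb))
    | inv a ha iha =>
      intro hxP
      have e1 : (⟨a⁻¹, hxP⟩ : P') = (⟨a, hCP a ha⟩)⁻¹ := rfl
      rw [e1, map_inv]
      exact inv_mem (iha (hCP a ha))
  exact huniq _ _ _ (h3 x (gen' x x.2) x.2) (hφ x x.2)

end pull

end Pool.Agent.Q105.MN
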